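import Pool.Agent.Lib_helper77.KSS.Defs

/-!
# KSS: truncated power series rings
-/

namespace Pool.Agent.KSS

/-- the truncated power series ring `κ[[T]]/(T^L)` -/
abbrev Tr (κ : Type) [Field κ] (L : ℕ) : Type :=
  PowerSeries κ ⧸ Ideal.span {(PowerSeries.X : PowerSeries κ) ^ L}

/-- the class of a power series -/
noncomputable abbrev tr {κ : Type} [Field κ] (L : ℕ) (a : PowerSeries κ) : Tr κ L :=
  Ideal.Quotient.mk _ a

end Pool.Agent.KSS
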