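import Pool.Agent.Lib_helper77.KSSP.Base
import Pool.Agent.Lib_helper77.KSS.Final
/-! # KSS, block FB -/

namespace Pool.Agent.KSS

open MvPolynomial
open scoped ENNReal

theorem fb_fin (N m : ℕ) : Module.Finite ℂ (homogeneousSubmodule (Fin N) ℂ m) := by
  have hfin : Set.Finite {d : Fin N →₀ ℕ | d.degree = m} := by
    apply Set.Finite.subset (Finset.finite_toSet (Finset.Iic
      (Finsupp.equivFunOnFinite.symm (fun _ : Fin N => m))))
    intro d hd
    rw [Finset.mem_coe, Finset.mem_Iic]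
    intro i
    have h1 : d.degree = m := hd
    have h2 : d i ≤ d.degree := Finsupp.le_degree i d
    rw [h1] at h2
    simpa using h2
  have hfin2 : Finite {d : Fin N →₀ ℕ | d.degree = m} := hfin
  let g : homogeneousSubmodule (Fin N) ℂ m →ₗ[ℂ] ({d : Fin N →₀ ℕ | d.degree = m} → ℂ) :=
    { toFun := fun s d => coeff d.1 (s : MvPolynomial (Fin N) ℂ)
      map_add' := by intro a b; funext d; simp
      map_smul' := by intro c a; funext d; simp }
  apply Module.Finite.of_injective g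
  intro a b hab
  apply Subtype.ext
  ext d
  by_cases hd : d.degree = m
  · exact congrFun hab ⟨d, hd⟩
  · have ha : (a : MvPolynomial (Fin N) ℂ).IsHomogeneous m := a.2
    have hb : (b : MvPolynomial (Fin N) ℂ).IsHomogeneous m := b.2
    rw [ha.coeff_eq_zero hd, hb.coeff_eq_zero hd]

theorem fb_rank {P Q : Type} [AddCommGroup P] [Module ℂ P] [AddCommGroup Q] [Module ℂ Q]
    (W : Submodule ℂ P) [Module.Finite ℂ W] (q : P →ₗ[ℂ] Q) :
    Module.finrank ℂ (W.map q) + Module.finrank ℂ (LinearMap.ker q ⊓ W : Submodule ℂ P) =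
      Module.finrank ℂ W := by
  have h := (q.domRestrict W).finrank_range_add_finrank_ker
  rw [LinearMap.range_domRestrict] at h
  have h2 : LinearMap.ker (q.domRestrict W) =
      (LinearMap.ker q ⊓ W : Submodule ℂ P).comap W.subtype := by
    ext x
    simp [LinearMap.mem_ker]
  rw [h2] at h
  rw [← h]
  congr 1
  exact (LinearEquiv.finrank_eq (Submodule.comapSubtypeEquivOfLe
    (inf_le_right : LinearMap.ker q ⊓ W ≤ W))).symm

theorem fb_ker {N k : ℕ} (f : Fin k → MvPolynomial (Fin N) ℂ) :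
    LinearMap.ker (Ideal.Quotient.mkₐ ℂ (Ideal.span (Set.range f))).toLinearMap =
      (Ideal.span (Set.range f)).restrictScalars ℂ := by
  ext s
  rw [LinearMap.mem_ker, Submodule.restrictScalars_mem]
  show Ideal.Quotient.mk _ s = 0 ↔ _
  exact Ideal.Quotient.eq_zero_iff_mem

/-- (FB) sections vanishing along `E` lift to forms vanishing on the jet -/
theorem fb_lift_pr {N k n : ℕ} (f : Fin k → MvPolynomial (Fin N) ℂ)
    (hf : ∀ i, ∃ e, (f i).IsHomogeneous e) (E : DivisorOver f n)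
    (κ : Type) [Field κ] [Algebra ℂ κ] (L : ℕ) (x : Fin N → Fin L → κ)
    (hx : ∀ (m l : ℕ) (s : MvPolynomial (Fin N) ℂ), s.IsHomogeneous m → l ≤ L →
      E.loc (Ideal.Quotient.mk _ s) ∈ IsLocalRing.maximalIdeal E.O ^ l →
        (PowerSeries.X : PowerSeries κ) ^ l ∣ ev x s) (m l : ℕ) (hl : l ≤ L) :
    Module.finrank ℂ (E.Fl m l) + Module.finrank ℂ (IM (Set.range f) m)
      ≤ Module.finrank ℂ (Fil ℂ x m l) := by
  have := fb_fin N m
  let q := (Ideal.Quotient.mkₐ ℂ (Ideal.span (Set.range f))).toLinearMap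
  let W : Submodule ℂ (MvPolynomial (Fin N) ℂ) := homogeneousSubmodule (Fin N) ℂ m ⊓
    (((IsLocalRing.maximalIdeal E.O ^ l).restrictScalars ℂ).comap E.loc.toLinearMap).comap q
  have hWle : W ≤ homogeneousSubmodule (Fin N) ℂ m := inf_le_left
  have : Module.Finite ℂ W := Submodule.finiteDimensional_of_le hWle
  have hmap : W.map q = E.Fl m l := by
    ext a
    constructor
    · rintro ⟨s, ⟨hs1, hs2⟩, rfl⟩
      exact ⟨⟨s, hs1, rfl⟩, hs2⟩
    · rintro ⟨⟨s, hs1, rfl⟩, hs2⟩
      exact ⟨s, ⟨hs1, hs2⟩, rfl⟩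
  have hker : (LinearMap.ker q ⊓ W : Submodule ℂ (MvPolynomial (Fin N) ℂ)) =
      IM (Set.range f) m := by
    unfold IM
    rw [← fb_ker f]
    ext s
    constructor
    · rintro ⟨h1, h2, h3⟩
      exact ⟨h1, h2⟩
    · rintro ⟨h1, h2⟩
      refine ⟨h1, h2, ?_⟩
      have h3 : q s = 0 := h1
      show E.loc (q s) ∈ IsLocalRing.maximalIdeal E.O ^ l
      rw [h3, map_zero]
      exact Ideal.zero_mem _
  have hr := fb_rank W q
  rw [hmap, hker] at hr
  rw [hr]
  have hFilfin : Module.Finite ℂ (Fil ℂ x m l) := by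
    apply Submodule.finiteDimensional_of_le (S₂ := homogeneousSubmodule (Fin N) ℂ m)
    intro F hF
    exact hF.1
  apply Submodule.finrank_mono
  rintro s ⟨hs1, hs2⟩
  exact ⟨hs1, hx m l s hs1 hl hs2⟩

/-- (FB) dimension of the degree `m` part of the coordinate ring -/
theorem fb_sec_pr {N k : ℕ} (f : Fin k → MvPolynomial (Fin N) ℂ)
    (hf : ∀ i, ∃ e, (f i).IsHomogeneous e) (m : ℕ) :
    Module.finrank ℂ (Sec f m) + Module.finrank ℂ (IM (Set.range f) m)
      = Module.finrank ℂ (homogeneousSubmodule (Fin N) ℂ m) := by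
  have := fb_fin N m
  have hr := fb_rank (homogeneousSubmodule (Fin N) ℂ m)
    (Ideal.Quotient.mkₐ ℂ (Ideal.span (Set.range f))).toLinearMap
  rw [fb_ker f] at hr
  exact hr

alias fb_lift := fb_lift_pr

alias fb_sec := fb_sec_pr

end Pool.Agent.KSS
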