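import Pool.Agent.Lib_helper77.KSSP.Base
import Pool.Agent.Lib_helper77.KSS.Final
/-!
# KSS block FV (helper35): the volume form of the inequality
-/

namespace Pool.Agent.KSS

open MvPolynomial MeasureTheory Filter
open scoped ENNReal

/-- the integral of a step function of `⌈M t⌉` -/
theorem fv_step (φ : ℕ → ℝ≥0∞) {M : ℕ} (hM : 1 ≤ M) :
    ∫⁻ t in Set.Ioi (0 : ℝ), φ ⌈(M : ℝ) * t⌉₊ ≤ (M : ℝ≥0∞)⁻¹ * ∑' l : ℕ, φ (l + 1) := by
  have hM' : (0 : ℝ) < M := by exact_mod_cast hM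
  have hsub : Set.Ioi (0 : ℝ) ⊆ ⋃ l : ℕ, Set.Ioc ((l : ℝ) / M) (((l : ℝ) + 1) / M) := by
    intro t ht
    have ht' : (0 : ℝ) < t := ht
    have h0 : 0 < (M : ℝ) * t := mul_pos hM' ht'
    have h1 : 0 < ⌈(M : ℝ) * t⌉₊ := Nat.ceil_pos.2 h0
    obtain ⟨l, hl⟩ : ∃ l : ℕ, ⌈(M : ℝ) * t⌉₊ = l + 1 := ⟨⌈(M : ℝ) * t⌉₊ - 1, by omega⟩
    rw [Set.mem_iUnion]
    refine ⟨l, ?_, ?_⟩
    · rw [div_lt_iff₀ hM']
      have h2 : l < ⌈(M : ℝ) * t⌉₊ := by omega
      have h3 := Nat.lt_ceil.1 h2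
      linarith [mul_comm (M : ℝ) t]
    · rw [le_div_iff₀ hM']
      have h2 := Nat.le_ceil ((M : ℝ) * t)
      rw [hl] at h2
      push_cast at h2
      linarith [mul_comm (M : ℝ) t]
  calc ∫⁻ t in Set.Ioi (0 : ℝ), φ ⌈(M : ℝ) * t⌉₊
      ≤ ∫⁻ t in ⋃ l : ℕ, Set.Ioc ((l : ℝ) / M) (((l : ℝ) + 1) / M), φ ⌈(M : ℝ) * t⌉₊ :=
        lintegral_mono_set hsub
    _ ≤ ∑' l : ℕ, ∫⁻ t in Set.Ioc ((l : ℝ) / M) (((l : ℝ) + 1) / M), φ ⌈(M : ℝ) * t⌉₊ :=
        lintegral_iUnion_le _ _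
    _ = ∑' l : ℕ, (M : ℝ≥0∞)⁻¹ * φ (l + 1) := by
        congr 1
        funext l
        have h4 : ∫⁻ t in Set.Ioc ((l : ℝ) / M) (((l : ℝ) + 1) / M), φ ⌈(M : ℝ) * t⌉₊ =
            ∫⁻ _ in Set.Ioc ((l : ℝ) / M) (((l : ℝ) + 1) / M), φ (l + 1) := by
          refine setLIntegral_congr_fun measurableSet_Ioc fun t ht => ?_
          obtain ⟨h5, h6⟩ := ht
          rw [div_lt_iff₀ hM'] at h5
          rw [le_div_iff₀ hM'] at h6
          have h7 : ⌈(M : ℝ) * t⌉₊ = l + 1 := by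
            rw [Nat.ceil_eq_iff (by omega)]
            constructor
            · rw [Nat.add_sub_cancel]
              linarith [mul_comm (M : ℝ) t]
            · push_cast
              linarith [mul_comm (M : ℝ) t]
          show φ ⌈(M : ℝ) * t⌉₊ = φ (l + 1)
          rw [h7]
        rw [h4, setLIntegral_const, Real.volume_Ioc]
        have h8 : ((l : ℝ) + 1) / M - (l : ℝ) / M = (M : ℝ)⁻¹ := by
          field_simp
          ring
        rw [h8, ENNReal.ofReal_inv_of_pos hM', ENNReal.ofReal_natCast, mul_comm]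
    _ = (M : ℝ≥0∞)⁻¹ * ∑' l : ℕ, φ (l + 1) := ENNReal.tsum_mul_left

theorem fv_sec_finite {N k : ℕ} (f : Fin k → MvPolynomial (Fin N) ℂ) (m : ℕ) :
    Module.Finite ℂ (Sec f m) := by
  unfold Sec
  have h2 : {d : Fin N →₀ ℕ | d.degree = m}.Finite := Finsupp.finite_of_degree_eq m
  have h3 : ((fun α : Fin N →₀ ℕ => (monomial α (1 : ℂ) : MvPolynomial (Fin N) ℂ)) ''
      {d : Fin N →₀ ℕ | d.degree = m}).Finite := h2.image _
  have h4 : Module.Finite ℂ (Submodule.span ℂ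
      ((fun α : Fin N →₀ ℕ => (monomial α (1 : ℂ) : MvPolynomial (Fin N) ℂ)) ''
      {d : Fin N →₀ ℕ | d.degree = m})) := Module.Finite.span_of_finite ℂ h3
  have h5 : homogeneousSubmodule (Fin N) ℂ m ≤ Submodule.span ℂ
      ((fun α : Fin N →₀ ℕ => (monomial α (1 : ℂ) : MvPolynomial (Fin N) ℂ)) ''
      {d : Fin N →₀ ℕ | d.degree = m}) := by
    intro F hF
    have hF' : F.IsHomogeneous m := hF
    rw [F.as_sum]
    refine Submodule.sum_mem _ fun α hα => ?_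
    have h6 : (monomial α (coeff α F) : MvPolynomial (Fin N) ℂ) =
        coeff α F • monomial α (1 : ℂ) := by
      rw [smul_monomial, smul_eq_mul, mul_one]
    rw [h6]
    refine Submodule.smul_mem _ _ (Submodule.subset_span ⟨α, ?_, rfl⟩)
    have h7 := hF' (mem_support_iff.1 hα)
    show α.degree = m
    rw [Finsupp.degree_eq_weight_one]
    exact h7
  have h1 : Module.Finite ℂ (homogeneousSubmodule (Fin N) ℂ m) :=
    Submodule.finiteDimensional_of_le h5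
  exact Module.Finite.map _ _

/-- (FV) the volume form of the inequality follows from the level form by Fatou's lemma -/
theorem fv_vol_pr {N k n : ℕ} (f : Fin k → MvPolynomial (Fin N) ℂ) (E : DivisorOver f n) (r : ℕ)
    (hS : ∀ M : ℕ, 1 ≤ M → E.S r M ≤ (E.A : ℝ≥0∞)) : E.Svol r ≤ (E.A : ℝ≥0∞) := by
  by_cases hA : (E.A : ℝ≥0∞) = ⊤
  · rw [hA]
    exact le_top
  have hFl0 : ∀ m : ℕ, E.Fl m 0 = Sec f m := by
    intro m
    unfold DivisorOver.Fl
    rw [inf_eq_left, pow_zero]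
    intro s _
    show E.loc.toLinearMap s ∈ (1 : Ideal E.O)
    rw [Ideal.one_eq_top]
    exact Submodule.mem_top
  have hFle : ∀ m l : ℕ, Module.finrank ℂ (E.Fl m l) ≤ Module.finrank ℂ (Sec f m) := by
    intro m l
    have := fv_sec_finite f m
    exact Submodule.finrank_mono inf_le_left
  -- the level sets
  set g : ℕ → ℝ → ℝ≥0∞ := fun M t => (n.factorial : ℝ≥0∞) *
    (Module.finrank ℂ (E.Fl (r * M) ⌈(M : ℝ) * t⌉₊) : ℝ≥0∞) / (M : ℝ≥0∞) ^ n with hg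
  have hmeas : ∀ M, Measurable (g M) := by
    intro M
    have h1 : Measurable (fun t : ℝ => ⌈(M : ℝ) * t⌉₊) :=
      Nat.measurable_ceil.comp (measurable_const.mul measurable_id)
    exact (measurable_from_nat (f := fun l : ℕ => (n.factorial : ℝ≥0∞) *
      (Module.finrank ℂ (E.Fl (r * M) l) : ℝ≥0∞) / (M : ℝ≥0∞) ^ n)).comp h1
  have hvol : ∀ t, E.vol r t = liminf (fun M => g M t) atTop := fun t => rfl
  have hkey : ∀ M : ℕ, 1 ≤ M → ∫⁻ t in Set.Ioi (0 : ℝ), g M t ≤ (E.A : ℝ≥0∞) * g M 0 := by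
    intro M hM
    have hM0 : (M : ℝ≥0∞) ≠ 0 := by
      have : M ≠ 0 := by omega
      exact_mod_cast this
    have hMt : (M : ℝ≥0∞) ≠ ⊤ := ENNReal.natCast_ne_top M
    have h1 := fv_step (fun l : ℕ => (n.factorial : ℝ≥0∞) *
      (Module.finrank ℂ (E.Fl (r * M) l) : ℝ≥0∞) / (M : ℝ≥0∞) ^ n) hM
    have h2 : ∑' l : ℕ, (Module.finrank ℂ (E.Fl (r * M) (l + 1)) : ℝ≥0∞) ≤
        (E.A : ℝ≥0∞) * (M * Module.finrank ℂ (Sec f (r * M))) := by
      by_cases h0 : Module.finrank ℂ (Sec f (r * M)) = 0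
      · have h3 : ∀ l : ℕ, (Module.finrank ℂ (E.Fl (r * M) (l + 1)) : ℝ≥0∞) = 0 := by
          intro l
          have := hFle (r * M) (l + 1)
          rw [h0] at this
          have h4 : Module.finrank ℂ (E.Fl (r * M) (l + 1)) = 0 := by omega
          rw [h4, Nat.cast_zero]
        rw [ENNReal.tsum_eq_zero.2 h3]
        exact bot_le
      · have h3 := hS M hM
        unfold DivisorOver.S at h3
        have h5 : (M : ℝ≥0∞) * Module.finrank ℂ (Sec f (r * M)) ≠ 0 := by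
          refine mul_ne_zero hM0 ?_
          exact_mod_cast h0
        have h6 : (M : ℝ≥0∞) * Module.finrank ℂ (Sec f (r * M)) ≠ ⊤ :=
          ENNReal.mul_ne_top hMt (ENNReal.natCast_ne_top _)
        exact (ENNReal.div_le_iff_le_mul (Or.inl h5) (Or.inl h6)).1 h3
    have h7 : ∑' l : ℕ, (n.factorial : ℝ≥0∞) *
        (Module.finrank ℂ (E.Fl (r * M) (l + 1)) : ℝ≥0∞) / (M : ℝ≥0∞) ^ n =
        (n.factorial : ℝ≥0∞) / (M : ℝ≥0∞) ^ n *
          ∑' l : ℕ, (Module.finrank ℂ (E.Fl (r * M) (l + 1)) : ℝ≥0∞) := by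
      rw [← ENNReal.tsum_mul_left]
      congr 1
      funext l
      rw [div_eq_mul_inv, div_eq_mul_inv]
      ring
    have h8 : g M 0 = (n.factorial : ℝ≥0∞) / (M : ℝ≥0∞) ^ n *
        Module.finrank ℂ (Sec f (r * M)) := by
      have h9 : ⌈(M : ℝ) * 0⌉₊ = 0 := by rw [mul_zero, Nat.ceil_zero]
      show (n.factorial : ℝ≥0∞) *
        (Module.finrank ℂ (E.Fl (r * M) ⌈(M : ℝ) * 0⌉₊) : ℝ≥0∞) / (M : ℝ≥0∞) ^ n = _
      rw [h9, hFl0, div_eq_mul_inv, div_eq_mul_inv]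
      ring
    calc ∫⁻ t in Set.Ioi (0 : ℝ), g M t
        ≤ (M : ℝ≥0∞)⁻¹ * ((n.factorial : ℝ≥0∞) / (M : ℝ≥0∞) ^ n *
          ∑' l : ℕ, (Module.finrank ℂ (E.Fl (r * M) (l + 1)) : ℝ≥0∞)) := by
          rw [← h7]
          exact h1
      _ ≤ (M : ℝ≥0∞)⁻¹ * ((n.factorial : ℝ≥0∞) / (M : ℝ≥0∞) ^ n *
          ((E.A : ℝ≥0∞) * (M * Module.finrank ℂ (Sec f (r * M))))) := by
          gcongr
      _ = ((M : ℝ≥0∞)⁻¹ * M) * ((E.A : ℝ≥0∞) * ((n.factorial : ℝ≥0∞) / (M : ℝ≥0∞) ^ n *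
          Module.finrank ℂ (Sec f (r * M)))) := by ring
      _ = (E.A : ℝ≥0∞) * g M 0 := by
          rw [ENNReal.inv_mul_cancel hM0 hMt, one_mul, h8]
  have hfin : ∫⁻ t in Set.Ioi (0 : ℝ), E.vol r t ≤ (E.A : ℝ≥0∞) * E.vol r 0 := by
    calc ∫⁻ t in Set.Ioi (0 : ℝ), E.vol r t
        = ∫⁻ t in Set.Ioi (0 : ℝ), liminf (fun M => g M t) atTop := by
          refine lintegral_congr fun t => hvol t
      _ ≤ liminf (fun M => ∫⁻ t in Set.Ioi (0 : ℝ), g M t) atTop :=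
          lintegral_liminf_le hmeas
      _ ≤ liminf (fun M => (E.A : ℝ≥0∞) * g M 0) atTop := by
          refine liminf_le_liminf ?_
          filter_upwards [eventually_ge_atTop 1] with M hM
          exact hkey M hM
      _ = (E.A : ℝ≥0∞) * E.vol r 0 := by
          rw [ENNReal.liminf_const_mul_of_ne_top hA, hvol]
  unfold DivisorOver.Svol
  exact ENNReal.div_le_of_le_mul hfin

alias fv_vol := fv_vol_pr

end Pool.Agent.KSS
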