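import Pool.Agent.Lib_helper77.KSSP.Base
/-!
# KSS, block HA: number of monomials with bounded exponents
-/

set_option autoImplicit false

namespace Pool.Agent.KSS

open MvPolynomial

theorem ha_geom (d : ℕ) :
    (PowerSeries.mk fun a => if a < d then (1 : ℤ) else 0) * (1 - PowerSeries.X) =
      1 - PowerSeries.X ^ d := by
  ext n
  rw [mul_sub, mul_one, map_sub, map_sub, PowerSeries.coeff_X_pow, PowerSeries.coeff_one,
    PowerSeries.coeff_mk]
  cases n with
  | zero =>
    rw [PowerSeries.coeff_zero_mul_X]
    by_cases h : 0 < d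
    · have h' : ¬ (0 = d) := by omega
      simp [h, h']
    · have h' : 0 = d := by omega
      simp [← h']
  | succ n =>
    rw [PowerSeries.coeff_succ_mul_X, PowerSeries.coeff_mk]
    rcases lt_trichotomy (n + 1) d with h | h | h
    · have h1 : n < d := by omega
      have h2 : ¬ (n + 1 = d) := by omega
      simp [h, h1, h2]
    · have h1 : n < d := by omega
      have h4 : d ≠ 0 := by omega
      simp [h1, h, h4]
    · have h1 : ¬ (n < d) := by omega
      have h2 : ¬ (n + 1 = d) := by omega
      have h3 : ¬ (n + 1 < d) := by omega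
      simp [h1, h2, h3]

theorem ha_count_pr {p : ℕ} (d : Fin p → ℕ) (v : ℕ) (B : Finset (Fin p)) (σ : Fin p → Fin v)
    (hσ : Set.InjOn σ B) (m : ℕ) :
    (((Finset.univ : Finset (Fin v)).finsuppAntidiag m).filter
      (fun β => ∀ i ∈ B, β (σ i) < d i)).card = NN d v B m := by
  classical
  set f : Fin v → PowerSeries ℤ := fun j =>
    PowerSeries.mk fun a => if (∀ i ∈ B, σ i = j → a < d i) then (1 : ℤ) else 0 with hf
  have h1 : PowerSeries.coeff m (∏ j, f j) =
      (((Finset.univ : Finset (Fin v)).finsuppAntidiag m).filter
      (fun β => ∀ i ∈ B, β (σ i) < d i)).card := by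
    rw [PowerSeries.coeff_prod, Finset.card_filter]
    push_cast
    refine Finset.sum_congr rfl fun l _ => ?_
    split_ifs with h
    · refine Finset.prod_eq_one fun j _ => ?_
      rw [hf]
      simp only [PowerSeries.coeff_mk]
      rw [if_pos]
      intro i hi hij
      rw [← hij]
      exact h i hi
    · push Not at h
      obtain ⟨i, hi, hi'⟩ := h
      refine Finset.prod_eq_zero (Finset.mem_univ (σ i)) ?_
      rw [hf]
      simp only [PowerSeries.coeff_mk]
      rw [if_neg]
      intro hcon
      have := hcon i hi rfl
      omega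
  have h2 : (∏ j, f j) * (1 - PowerSeries.X) ^ v = ∏ i ∈ B, (1 - PowerSeries.X ^ (d i)) := by
    have e1 : ((1 - PowerSeries.X : PowerSeries ℤ)) ^ v =
        ∏ _j : Fin v, (1 - PowerSeries.X : PowerSeries ℤ) := by
      rw [Finset.prod_const, Finset.card_univ, Fintype.card_fin]
    rw [e1, ← Finset.prod_mul_distrib,
      ← Finset.prod_fiberwise B σ (fun i => (1 - (PowerSeries.X : PowerSeries ℤ) ^ (d i)))]
    refine Finset.prod_congr rfl fun j _ => ?_
    by_cases hj : ∃ i ∈ B, σ i = j
    · obtain ⟨i, hi, hij⟩ := hj
      have e2 : B.filter (fun i => σ i = j) = {i} := by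
        ext i'
        rw [Finset.mem_filter, Finset.mem_singleton]
        constructor
        · rintro ⟨h3, h4⟩
          exact hσ h3 hi (h4.trans hij.symm)
        · rintro rfl
          exact ⟨hi, hij⟩
      rw [e2, Finset.prod_singleton, ← ha_geom]
      congr 1
      rw [hf]
      simp only
      congr 1
      funext a
      congr 1
      apply propext
      constructor
      · intro h
        exact h i hi hij
      · intro h i' hi' hij'
        rw [hσ hi' hi (hij'.trans hij.symm)]
        exact h
    · have e2 : B.filter (fun i => σ i = j) = ∅ := by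
        rw [Finset.filter_eq_empty_iff]
        intro i hi hij
        exact hj ⟨i, hi, hij⟩
      rw [e2, Finset.prod_empty]
      have e3 : f j = PowerSeries.mk 1 := by
        rw [hf]
        simp only
        congr 1
        funext a
        rw [if_pos]
        · rfl
        · intro i hi hij
          exact absurd ⟨i, hi, hij⟩ hj
      rw [e3, PowerSeries.mk_one_mul_one_sub_eq_one]
  have h3 : (∏ j, f j) = HS d v B := by
    unfold HS
    rw [← h2, mul_assoc]
    have h4 : (1 - PowerSeries.X : PowerSeries ℤ) ^ v *
        ((PowerSeries.invOneSubPow ℤ v : (PowerSeries ℤ)ˣ) : PowerSeries ℤ) = 1 := by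
      rw [← PowerSeries.invOneSubPow_inv_eq_one_sub_pow]
      exact (PowerSeries.invOneSubPow ℤ v).inv_val
    rw [h4, mul_one]
  unfold NN
  rw [← h3, h1]

alias ha_count := ha_count_pr

end Pool.Agent.KSS
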