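import Pool.Agent.Lib_helper77.KSSP.Base
/-!
# KSS, block HB: semicontinuity of the Hilbert function
-/

set_option autoImplicit false

namespace Pool.Agent.KSS

open MvPolynomial

theorem hb_lower_pr {p : ℕ} (d : Fin p → ℕ) (v : ℕ) (B : Finset (Fin p)) (σ : Fin p → Fin v)
    (hσ : Set.InjOn σ B)
    (k : Type) [Field k] [CharZero k] (G : Fin p → MvPolynomial (Fin v) k) (hG : Gen d G)
    (m : ℕ) :
    (((Finset.univ : Finset (Fin v)).finsuppAntidiag m).filter
      (fun β => ¬ ∀ i ∈ B, β (σ i) < d i)).card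
      ≤ Module.finrank k (IM (G '' (B : Set (Fin p))) m) := by
  classical
  set MM := ((Finset.univ : Finset (Fin v)).finsuppAntidiag m).filter
      (fun β => ¬ ∀ i ∈ B, β (σ i) < d i) with hMM
  have hdeg : ∀ β : MM, (β : Fin v →₀ ℕ).degree = m := by
    intro β
    have h1 := (Finset.mem_filter.1 β.2).1
    rw [Finset.mem_finsuppAntidiag] at h1
    rw [Finsupp.degree_eq_sum]
    exact h1.1
  have hch : ∀ β : MM, ∃ i, i ∈ B ∧ d i ≤ (β : Fin v →₀ ℕ) (σ i) := by
    intro β
    have h1 := (Finset.mem_filter.1 β.2).2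
    push Not at h1
    exact h1
  choose ι hιB hι using hch
  -- the exponent `β - d_i e_{σ i}`
  set s : MM → (Fin v →₀ ℕ) := fun β =>
    (β : Fin v →₀ ℕ) - Finsupp.single (σ (ι β)) (d (ι β)) with hs
  have hle : ∀ β : MM, Finsupp.single (σ (ι β)) (d (ι β)) ≤ (β : Fin v →₀ ℕ) := by
    intro β
    rw [Finsupp.single_le_iff]
    exact hι β
  have hadd : ∀ β : MM, s β + Finsupp.single (σ (ι β)) (d (ι β)) = (β : Fin v →₀ ℕ) := by
    intro β
    exact tsub_add_cancel_of_le (hle β)
  have hsdeg : ∀ β : MM, (s β).degree + d (ι β) = m := by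
    intro β
    rw [← hdeg β, ← hadd β, map_add, Finsupp.degree_single]
  set P : MM → MvPolynomial (Fin v) k := fun β => monomial (s β) 1 * G (ι β) with hP
  have hPmem : ∀ β, P β ∈ IM (G '' (B : Set (Fin p))) m := by
    intro β
    refine ⟨?_, ?_⟩
    · show P β ∈ Ideal.span (G '' (B : Set (Fin p)))
      exact Ideal.mul_mem_left _ _ (Ideal.subset_span ⟨ι β, hιB β, rfl⟩)
    · show (P β).IsHomogeneous m
      have h1 := (isHomogeneous_monomial (1 : k) (rfl : (s β).degree = (s β).degree)).mul
        (hG.1 (ι β))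
      rw [hsdeg β] at h1
      exact h1
  -- the generic matrix
  set J := Σ i : Fin p, {α : Fin v →₀ ℕ // α.degree = d i} with hJ
  set c : J → k := fun x => (G x.1).coeff x.2.1 with hc
  have hcind : AlgebraicIndependent ℚ c := hG.2
  set Q : Matrix MM MM (MvPolynomial J ℚ) := fun β γ =>
    if s β ≤ (γ : Fin v →₀ ℕ) then
      if h : ((γ : Fin v →₀ ℕ) - s β).degree = d (ι β) then X ⟨ι β, ⟨_, h⟩⟩ else 0
    else 0 with hQ
  set A : Matrix MM MM k := fun β γ => (P β).coeff γ with hA
  have hQA : (aeval c : MvPolynomial J ℚ →ₐ[ℚ] k).mapMatrix Q = A := by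
    ext β γ
    rw [AlgHom.mapMatrix_apply, Matrix.map_apply, hQ, hA, hP]
    simp only
    rw [coeff_monomial_mul', one_mul]
    split_ifs with h1 h2
    · rw [aeval_X]
    · rw [map_zero]
      exact ((hG.1 (ι β)).coeff_eq_zero h2).symm
    · rw [map_zero]
  -- the special point
  set c0 : J → ℚ := fun x => if x.2.1 = Finsupp.single (σ x.1) (d x.1) then 1 else 0 with hc0
  have hQ1 : (aeval c0 : MvPolynomial J ℚ →ₐ[ℚ] ℚ).mapMatrix Q = 1 := by
    ext β γ
    rw [AlgHom.mapMatrix_apply, Matrix.map_apply, hQ, Matrix.one_apply]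
    simp only
    by_cases hβγ : β = γ
    · subst hβγ
      have h1 : s β ≤ (β : Fin v →₀ ℕ) := tsub_le_self
      have h3 : (β : Fin v →₀ ℕ) - s β = Finsupp.single (σ (ι β)) (d (ι β)) := by
        conv_lhs => rw [← hadd β]
        rw [add_tsub_cancel_left]
      have h2 : ((β : Fin v →₀ ℕ) - s β).degree = d (ι β) := by
        rw [h3, Finsupp.degree_single]
      rw [if_pos h1, dif_pos h2, aeval_X, if_pos rfl, hc0]
      simp only
      rw [if_pos h3]
    · rw [if_neg hβγ]
      split_ifs with h1 h2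
      · rw [aeval_X, hc0]
        simp only
        rw [if_neg]
        intro h3
        apply hβγ
        apply Subtype.ext
        rw [← hadd β, ← h3, add_comm, tsub_add_cancel_of_le h1]
      · rw [map_zero]
      · rw [map_zero]
  have hdet : A.det ≠ 0 := by
    rw [← hQA, ← AlgHom.map_det]
    intro h0
    have h1 : Q.det = 0 := by
      apply hcind
      rw [h0, map_zero]
    have h2 : (aeval c0 : MvPolynomial J ℚ →ₐ[ℚ] ℚ) Q.det = 1 := by
      rw [AlgHom.map_det, hQ1, Matrix.det_one]
    rw [h1, map_zero] at h2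
    exact zero_ne_one h2
  -- linear independence
  have hlin : LinearIndependent k (fun β : MM => (⟨P β, hPmem β⟩ : IM (G '' (B : Set (Fin p))) m)) := by
    rw [Fintype.linearIndependent_iff]
    intro g hg
    have h1 : ∑ β, g β • P β = 0 := by
      have := congrArg Subtype.val hg
      simpa using this
    have h2 : Matrix.vecMul g A = 0 := by
      funext γ
      have h3 := congrArg (fun F => coeff (γ : Fin v →₀ ℕ) F) h1
      simp only [coeff_sum, coeff_smul, coeff_zero] at h3
      rw [Matrix.vecMul, Pi.zero_apply]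
      simpa [dotProduct, hA] using h3
    have h4 := Matrix.eq_zero_of_vecMul_eq_zero hdet h2
    intro β
    rw [h4]
    rfl
  have : Module.Finite k (homogeneousSubmodule (Fin v) k m) :=
    Module.Finite.iff_fg.2 (homogeneousSubmodule_fg (Fin v) k m)
  have : FiniteDimensional k (IM (G '' (B : Set (Fin p))) m) :=
    Submodule.finiteDimensional_of_le (inf_le_right : IM (G '' (B : Set (Fin p))) m ≤ _)
  have h5 := hlin.fintype_card_le_finrank
  rwa [Fintype.card_coe] at h5

alias hb_lower := hb_lower_pr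

end Pool.Agent.KSS
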