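import Pool.Agent.Lib_helper77.KSSP.Base
/-!
# KSS block HC: one more equation
-/

namespace Pool.Agent.KSS

open MvPolynomial

theorem hc_comp {v : ℕ} {k : Type} [Field k] {F : MvPolynomial (Fin v) k} {e : ℕ}
    (hF : F.IsHomogeneous e) (m : ℕ) (a : MvPolynomial (Fin v) k) :
    homogeneousComponent m (a * F) =
      if e ≤ m then homogeneousComponent (m - e) a * F else 0 := by
  classical
  have h1 : a = ∑ i ∈ Finset.range (max (a.totalDegree + 1) (m + 1)),
      homogeneousComponent i a := by
    conv_lhs => rw [← sum_homogeneousComponent a]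
    refine Finset.sum_subset ?_ ?_
    · intro x hx
      simp only [Finset.mem_range] at hx ⊢
      omega
    · intro x _ hx
      simp only [Finset.mem_range, not_lt] at hx
      exact homogeneousComponent_eq_zero _ _ (by omega)
  have h3 : ∀ b, homogeneousComponent m (homogeneousComponent b a * F) =
      if b + e = m then homogeneousComponent b a * F else 0 := by
    intro b
    have h2 : (homogeneousComponent b a * F).IsHomogeneous (b + e) :=
      (homogeneousComponent_isHomogeneous b a).mul hF
    rw [homogeneousComponent_of_mem h2]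
    by_cases hb : b + e = m
    · rw [if_pos hb, if_pos hb.symm]
    · rw [if_neg hb, if_neg (fun h => hb h.symm)]
  conv_lhs => rw [h1]
  rw [Finset.sum_mul, map_sum]
  split_ifs with he
  · rw [Finset.sum_eq_single (m - e)]
    · rw [h3, if_pos (by omega)]
    · intro b _ hb
      rw [h3, if_neg (by omega)]
    · intro h
      exfalso
      apply h
      simp only [Finset.mem_range]
      omega
  · refine Finset.sum_eq_zero fun b _ => ?_
    rw [h3, if_neg (by omega)]

theorem hc_hom {v : ℕ} {k : Type} [Field k] (S : Set (MvPolynomial (Fin v) k))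
    (hS : ∀ F ∈ S, ∃ e, F.IsHomogeneous e) (f : MvPolynomial (Fin v) k)
    (hf : f ∈ Ideal.span S) (m : ℕ) : homogeneousComponent m f ∈ Ideal.span S := by
  let _ : GradedAlgebra (homogeneousSubmodule (Fin v) k) := gradedAlgebra
  have h := Ideal.homogeneous_span (homogeneousSubmodule (Fin v) k) S
    (fun x hx => by
      obtain ⟨e, he⟩ := hS x hx
      exact ⟨e, he⟩)
  have h2 := h m hf
  have h3 : ((DirectSum.decompose (homogeneousSubmodule (Fin v) k) f m :
      homogeneousSubmodule (Fin v) k m) : MvPolynomial (Fin v) k) =
      homogeneousComponent m f := decomposition.decompose'_apply f m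
  rwa [h3] at h2

instance hc_fd (v : ℕ) (k : Type) [Field k] (m : ℕ) :
    FiniteDimensional k (homogeneousSubmodule (Fin v) k m) :=
  Module.Finite.iff_fg.2 (homogeneousSubmodule_fg (R := k) (σ := Fin v) m)

instance hc_fdI {v : ℕ} {k : Type} [Field k] (S : Set (MvPolynomial (Fin v) k)) (m : ℕ) :
    FiniteDimensional k (IM S m) :=
  Submodule.finiteDimensional_of_le (inf_le_right : IM S m ≤ homogeneousSubmodule (Fin v) k m)

/-- (HC) one more equation -/
theorem hc_upper_pr {v : ℕ} {k : Type} [Field k] (S : Set (MvPolynomial (Fin v) k))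
    (hS : ∀ F ∈ S, ∃ e, F.IsHomogeneous e) (F : MvPolynomial (Fin v) k) (e : ℕ)
    (hF : F.IsHomogeneous e) (m : ℕ) :
    Module.finrank k (IM (insert F S) m) + (if e ≤ m then Module.finrank k (IM S (m - e)) else 0)
      ≤ Module.finrank k (IM S m) +
        (if e ≤ m then Module.finrank k (homogeneousSubmodule (Fin v) k (m - e)) else 0) := by
  classical
  -- decomposition of an element
  have hdec : ∀ f ∈ IM (insert F S) m, ∃ i ∈ IM S m, ∃ r : MvPolynomial (Fin v) k,
      f = (if e ≤ m then homogeneousComponent (m - e) r * F else 0) + i := by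
    rintro f ⟨hf1, hf2⟩
    have hf1' : f ∈ Ideal.span (insert F S) := hf1
    obtain ⟨a, z, hz, rfl⟩ := Ideal.mem_span_insert.1 hf1'
    have hf2' : (a * F + z).IsHomogeneous m := hf2
    refine ⟨homogeneousComponent m z, ⟨hc_hom S hS z hz m,
      homogeneousComponent_isHomogeneous m z⟩, a, ?_⟩
    have h1 : homogeneousComponent m (a * F + z) = a * F + z := by
      rw [homogeneousComponent_of_mem hf2', if_pos rfl]
    rw [← h1, map_add, hc_comp hF]
  by_cases he : e ≤ m
  · simp only [if_pos he] at hdec ⊢
    let μ : MvPolynomial (Fin v) k →ₗ[k] MvPolynomial (Fin v) k := LinearMap.mulRight k F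
    have hμ : ∀ r, μ r = r * F := fun r => rfl
    by_cases hF0 : F = 0
    · have h1 : IM (insert F S) m ≤ IM S m := by
        intro f hf
        obtain ⟨i, hi, r, rfl⟩ := hdec f hf
        rw [hF0, mul_zero, zero_add]
        exact hi
      have h2 : IM S (m - e) ≤ homogeneousSubmodule (Fin v) k (m - e) := inf_le_right
      exact add_le_add (Submodule.finrank_mono h1) (Submodule.finrank_mono h2)
    · have hinj : Function.Injective μ := fun a b h => mul_right_cancel₀ hF0 h
      have h1 : IM (insert F S) m ≤
          IM S m ⊔ (homogeneousSubmodule (Fin v) k (m - e)).map μ := by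
        intro f hf
        obtain ⟨i, hi, r, rfl⟩ := hdec f hf
        rw [add_comm]
        exact Submodule.add_mem_sup hi
          ⟨homogeneousComponent (m - e) r, homogeneousComponent_isHomogeneous _ _, rfl⟩
      have h2 : (IM S (m - e)).map μ ≤
          IM S m ⊓ (homogeneousSubmodule (Fin v) k (m - e)).map μ := by
        rintro f ⟨r, ⟨hr1, hr2⟩, rfl⟩
        have hr2' : r.IsHomogeneous (m - e) := hr2
        refine ⟨⟨?_, ?_⟩, ⟨r, hr2, rfl⟩⟩
        · exact Ideal.mul_mem_right F (Ideal.span S) hr1
        · have := hr2'.mul hF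
          rwa [Nat.sub_add_cancel he] at this
      have h3 := Submodule.finrank_sup_add_finrank_inf_eq (IM S m)
        ((homogeneousSubmodule (Fin v) k (m - e)).map μ)
      have h4 := Submodule.finrank_mono h1
      have h5 := Submodule.finrank_mono h2
      have h6 : Module.finrank k ((IM S (m - e)).map μ) = Module.finrank k (IM S (m - e)) :=
        (LinearEquiv.finrank_eq (Submodule.equivMapOfInjective μ hinj _)).symm
      have h7 : Module.finrank k ((homogeneousSubmodule (Fin v) k (m - e)).map μ) =
          Module.finrank k (homogeneousSubmodule (Fin v) k (m - e)) :=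
        (LinearEquiv.finrank_eq (Submodule.equivMapOfInjective μ hinj _)).symm
      omega
  · simp only [if_neg he] at hdec ⊢
    have h1 : IM (insert F S) m ≤ IM S m := by
      intro f hf
      obtain ⟨i, hi, r, rfl⟩ := hdec f hf
      rw [zero_add]
      exact hi
    exact add_le_add (Submodule.finrank_mono h1) le_rfl

alias hc_upper := hc_upper_pr

end Pool.Agent.KSS
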