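import Pool.Agent.Lib_helper77.KSSP.HA
import Pool.Agent.Lib_helper77.KSSP.HB
import Pool.Agent.Lib_helper77.KSSP.HC

/-!
# KSS: the Hilbert function of generic forms
-/

namespace Pool.Agent.KSS

open MvPolynomial

/-- recursion of the Hilbert function -/
theorem hilb_NN_insert {p : ℕ} (d : Fin p → ℕ) (v : ℕ) (B : Finset (Fin p)) (j : Fin p)
    (hj : j ∉ B) (m : ℕ) :
    NN d v (insert j B) m = NN d v B m - (if d j ≤ m then NN d v B (m - d j) else 0) := by
  unfold NN HS
  rw [Finset.prod_insert hj, mul_assoc, sub_mul, one_mul, map_sub, PowerSeries.coeff_X_pow_mul']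

theorem hilb_aux {p : ℕ} (d : Fin p → ℕ) (v : ℕ) (k : Type) [Field k] [CharZero k]
    (G : Fin p → MvPolynomial (Fin v) k) (hG : Gen d G)
    (hfin : ∀ m, (Module.finrank k (homogeneousSubmodule (Fin v) k m) : ℤ) = NN d v ∅ m)
    (B : Finset (Fin p)) (hB : B.card ≤ v) (m : ℕ) :
    (Module.finrank k (IM (G '' (B : Set (Fin p))) m) : ℤ) = NN d v ∅ m - NN d v B m := by
  classical
  induction B using Finset.induction_on generalizing m with
  | empty =>
    have h0 : IM (G '' ((∅ : Finset (Fin p)) : Set (Fin p))) m = ⊥ := by
      unfold IM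
      simp
    rw [h0]
    simp
  | insert j B hj ih =>
    have hcard : B.card + 1 ≤ v := by
      rwa [Finset.card_insert_of_notMem hj] at hB
    have ih' := ih (by omega)
    -- upper bound
    have hup := hc_upper (G '' (B : Set (Fin p))) (by
      rintro F ⟨i, -, rfl⟩
      exact ⟨d i, hG.1 i⟩) (G j) (d j) (hG.1 j) m
    have hins : insert (G j) (G '' (B : Set (Fin p))) = G '' ((insert j B : Finset (Fin p)) : Set (Fin p)) := by
      rw [Finset.coe_insert, Set.image_insert_eq]
    rw [hins] at hup
    have hup' : (Module.finrank k (IM (G '' ((insert j B : Finset (Fin p)) : Set (Fin p))) m) : ℤ) ≤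
        NN d v ∅ m - NN d v (insert j B) m := by
      rw [hilb_NN_insert d v B j hj m]
      have h1 := ih' m
      by_cases hd : d j ≤ m
      · simp only [hd, if_true] at hup ⊢
        have h2 := ih' (m - d j)
        have h3 := hfin (m - d j)
        zify at hup
        rw [h1, h2, h3] at hup
        linarith
      · simp only [hd, if_false] at hup ⊢
        zify at hup
        rw [h1] at hup
        linarith
    -- lower bound
    have hlow : NN d v ∅ m - NN d v (insert j B) m ≤
        (Module.finrank k (IM (G '' ((insert j B : Finset (Fin p)) : Set (Fin p))) m) : ℤ) := by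
      have hv : 0 < v := by omega
      -- an injective assignment
      obtain ⟨σ, hσ⟩ : ∃ σ : Fin p → Fin v, Set.InjOn σ ((insert j B : Finset (Fin p)) : Set (Fin p)) := by
        have hc : Fintype.card {x // x ∈ insert j B} ≤ Fintype.card (Fin v) := by
          rw [Fintype.card_coe, Fintype.card_fin]
          exact hB
        obtain ⟨e⟩ := Function.Embedding.nonempty_of_card_le hc
        refine ⟨fun i => if h : i ∈ insert j B then e ⟨i, h⟩ else ⟨0, hv⟩, ?_⟩
        intro a ha b hb hab
        have ha' : a ∈ insert j B := by exact_mod_cast ha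
        have hb' : b ∈ insert j B := by exact_mod_cast hb
        simp only [ha', hb', dif_pos] at hab
        have := e.injective hab
        simpa using this
      have h1 := ha_count d v (insert j B) σ hσ m
      have h2 := ha_count d v ∅ σ (by simp) m
      have h3 := hb_lower d v (insert j B) σ hσ k G hG m
      have h4 := Finset.card_filter_add_card_filter_not (s := (Finset.univ : Finset (Fin v)).finsuppAntidiag m)
        (fun β : Fin v →₀ ℕ => ∀ i ∈ insert j B, β (σ i) < d i)
      have h5 : ((Finset.univ : Finset (Fin v)).finsuppAntidiag m).filter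
          (fun β => ∀ i ∈ (∅ : Finset (Fin p)), β (σ i) < d i) = (Finset.univ : Finset (Fin v)).finsuppAntidiag m := by
        simp
      rw [h5] at h2
      rw [← h1, ← h2]
      have h6 : ((((Finset.univ : Finset (Fin v)).finsuppAntidiag m).filter
        (fun β => ¬ ∀ i ∈ insert j B, β (σ i) < d i)).card : ℤ) ≤
        (Module.finrank k (IM (G '' ((insert j B : Finset (Fin p)) : Set (Fin p))) m) : ℤ) := by
        exact_mod_cast h3
      have h7 : ((((Finset.univ : Finset (Fin v)).finsuppAntidiag m).filter
        (fun β => ∀ i ∈ insert j B, β (σ i) < d i)).card : ℤ) +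
        ((((Finset.univ : Finset (Fin v)).finsuppAntidiag m).filter
        (fun β => ¬ ∀ i ∈ insert j B, β (σ i) < d i)).card : ℤ) =
        (((Finset.univ : Finset (Fin v)).finsuppAntidiag m).card : ℤ) := by
        exact_mod_cast h4
      linarith
    linarith

/-- number of monomials of degree `m` -/
theorem finrank_hom_pr (k : Type) [Field k] {p : ℕ} (d : Fin p → ℕ) (v m : ℕ) :
    (Module.finrank k (homogeneousSubmodule (Fin v) k m) : ℤ) = NN d v ∅ m := by
  classical
  have h1 : ((((Finset.univ : Finset (Fin v)).finsuppAntidiag m)).card : ℤ) = NN d v ∅ m := by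
    rcases Nat.eq_zero_or_pos v with rfl | hv
    · have h0 : NN d 0 ∅ m = if m = 0 then 1 else 0 := by
        unfold NN HS
        simp [PowerSeries.invOneSubPow_zero, PowerSeries.coeff_one]
      rw [h0]
      rcases Nat.eq_zero_or_pos m with rfl | hm
      · simp
      · have : ((Finset.univ : Finset (Fin 0)).finsuppAntidiag m) = ∅ := by
          rw [Finset.eq_empty_iff_forall_notMem]
          intro β hβ
          rw [Finset.mem_finsuppAntidiag] at hβ
          simp at hβ
          omega
        rw [this]
        simp [hm.ne']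
    · have := ha_count d v ∅ (fun _ => ⟨0, hv⟩) (by simp) m
      simpa using this
  rw [← h1]
  have hset : {d : Fin v →₀ ℕ | d.degree = m} = (((Finset.univ : Finset (Fin v)).finsuppAntidiag m : Finset (Fin v →₀ ℕ)) : Set (Fin v →₀ ℕ)) := by
    ext β
    simp only [Set.mem_ofPred_eq, Finset.mem_coe, Finset.mem_finsuppAntidiag, Finsupp.degree]
    constructor
    · intro h
      refine ⟨?_, by simp⟩
      rw [← h]
      symm
      apply Finset.sum_subset (by simp)
      intro i _ hi
      simpa using hi
    · rintro ⟨h, -⟩
      rw [← h]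
      apply Finset.sum_subset (by simp)
      intro i _ hi
      simpa using hi
  rw [homogeneousSubmodule_eq_finsupp_supported, hset]
  have e := basisRestrictSupport k (((Finset.univ : Finset (Fin v)).finsuppAntidiag m : Finset (Fin v →₀ ℕ)) : Set (Fin v →₀ ℕ))
  have h3 := Module.finrank_eq_nat_card_basis e
  rw [restrictSupport] at h3
  rw [h3]
  norm_cast
  exact Nat.card_eq_card_toFinset _ |>.trans (by rw [Finset.toFinset_coe])

theorem hilb_pr {p : ℕ} (d : Fin p → ℕ) (_hd : ∀ i, 1 ≤ d i) (v : ℕ) (B : Finset (Fin p))
    (hB : B.card ≤ v)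
    (k : Type) [Field k] [CharZero k] (G : Fin p → MvPolynomial (Fin v) k) (hG : Gen d G)
    (m : ℕ) :
    (Module.finrank k (IM (G '' (B : Set (Fin p))) m) : ℤ) = NN d v ∅ m - NN d v B m :=
  hilb_aux d v k G hG (fun m => finrank_hom_pr k d v m) B hB m

end Pool.Agent.KSS
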