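import Pool.Agent.Lib_helper77.KSSP.Base
/-!
# KSS: block JA
-/

namespace Pool.Agent.KSS

open MvPolynomial

open scoped IntermediateField.algebraAdjoinAdjoin in
/-- a field of characteristic zero is formally smooth over the polynomial ring of a
transcendence basis -/
theorem ja_smooth {K F ι : Type} [Field K] [CharZero K] [Field F] [Algebra K F] (v : ι → F)
    (hv : IsTranscendenceBasis K v) :
    Algebra.FormallySmooth (Algebra.adjoin K (Set.range v)) F := by
  have h1 : Algebra.FormallySmooth (Algebra.adjoin K (Set.range v))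
      (IntermediateField.adjoin K (Set.range v)) :=
    .of_isLocalization (nonZeroDivisors _)
  have h2 : Algebra.IsAlgebraic (IntermediateField.adjoin K (Set.range v)) F :=
    hv.isAlgebraic_field
  have : CharZero (IntermediateField.adjoin K (Set.range v)) :=
    charZero_of_injective_algebraMap
      (algebraMap K (IntermediateField.adjoin K (Set.range v))).injective
  have h3 : Algebra.FormallyEtale (IntermediateField.adjoin K (Set.range v)) F :=
    Algebra.FormallyEtale.of_isSeparable _ F
  exact .comp _ (IntermediateField.adjoin K (Set.range v)) _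

/-- lifting a map of a field of characteristic zero along a nilpotent thickening, with
prescribed values on a transcendence basis -/
theorem ja_lift {K F ι R S : Type} [Field K] [CharZero K] [Field F] [Algebra K F] (v : ι → F)
    (hv : IsTranscendenceBasis K v) [CommRing R] [CommRing S] (red : R →+* S)
    (hred : Function.Surjective red) (hnil : IsNilpotent (RingHom.ker red)) (c : K →+* R)
    (r : ι → R) (f : F →+* S) (hc : ∀ x, red (c x) = f (algebraMap K F x))
    (hr : ∀ i, red (r i) = f (v i)) :
    ∃ s : F →+* R, (∀ x, red (s x) = f x) ∧ (∀ x, s (algebraMap K F x) = c x) ∧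
      ∀ i, s (v i) = r i := by
  have := ja_smooth v hv
  let e := hv.1.aevalEquiv
  let φ : Algebra.adjoin K (Set.range v) →+* R :=
    (MvPolynomial.eval₂Hom c r).comp e.symm.toRingEquiv.toRingHom
  have hφ : ∀ p : MvPolynomial ι K, φ (e p) = MvPolynomial.eval₂Hom c r p := by
    intro p
    change MvPolynomial.eval₂Hom c r (e.symm (e p)) = _
    rw [AlgEquiv.symm_apply_apply]
  have he : ∀ p : MvPolynomial ι K, ((e p : Algebra.adjoin K (Set.range v)) : F) = aeval v p := by
    intro p
    exact hv.1.aevalEquiv_apply_coe p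
  let : Algebra (Algebra.adjoin K (Set.range v)) R := φ.toAlgebra
  let : Algebra (Algebra.adjoin K (Set.range v)) S := (red.comp φ).toAlgebra
  have hcomp : (red.comp (MvPolynomial.eval₂Hom c r)) =
      f.comp (aeval v : MvPolynomial ι K →ₐ[K] F).toRingHom := by
    apply MvPolynomial.ringHom_ext
    · intro x
      simp [hc]
    · intro i
      simp [hr]
  let g : R →ₐ[Algebra.adjoin K (Set.range v)] S :=
    { red with commutes' := fun x => rfl }
  let f' : F →ₐ[Algebra.adjoin K (Set.range v)] S :=
    { f with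
      commutes' := by
        intro x
        obtain ⟨p, rfl⟩ := e.surjective x
        change f ((e p : Algebra.adjoin K (Set.range v)) : F) = red (φ (e p))
        rw [hφ, he]
        exact (RingHom.congr_fun hcomp p).symm }
  let s := Algebra.FormallySmooth.liftOfSurjective f' g hred hnil
  have hs : ∀ x, red (s x) = f x := fun x =>
    Algebra.FormallySmooth.liftOfSurjective_apply f' g hred hnil x
  have hs2 : ∀ p : MvPolynomial ι K, s (aeval v p) = MvPolynomial.eval₂Hom c r p := by
    intro p
    rw [← hφ, ← he]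
    exact s.commutes (e p)
  refine ⟨s.toRingHom, hs, fun x => ?_, fun i => ?_⟩
  · have := hs2 (C x)
    simpa using this
  · have := hs2 (X i)
    simpa using this

/-- the kernel of the map induced on `A/(y^L)` -/
theorem ja_nil {A S : Type} [CommRing A] [CommRing S] (f : A →+* S) (y : A) (L : ℕ)
    (hy : RingHom.ker f ≤ Ideal.span {y}) (h : ∀ a ∈ Ideal.span {y ^ L}, f a = 0) :
    RingHom.ker (Ideal.Quotient.lift (Ideal.span {y ^ L}) f h) ≤
        Ideal.span {Ideal.Quotient.mk (Ideal.span {y ^ L}) y} ∧
      IsNilpotent (RingHom.ker (Ideal.Quotient.lift (Ideal.span {y ^ L}) f h)) := by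
  have h1 : RingHom.ker (Ideal.Quotient.lift (Ideal.span {y ^ L}) f h) ≤
        Ideal.span {Ideal.Quotient.mk (Ideal.span {y ^ L}) y} := by
    intro z hz
    obtain ⟨z, rfl⟩ := Ideal.Quotient.mk_surjective z
    rw [RingHom.mem_ker, Ideal.Quotient.lift_mk] at hz
    have h2 := hy (RingHom.mem_ker.mpr hz)
    rw [Ideal.mem_span_singleton] at h2 ⊢
    exact map_dvd (Ideal.Quotient.mk (Ideal.span {y ^ L})) h2
  refine ⟨h1, L, ?_⟩
  rw [Submodule.zero_eq_bot, eq_bot_iff]
  refine (Ideal.pow_right_mono h1 L).trans ?_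
  rw [Ideal.span_singleton_pow, ← map_pow]
  have h3 : Ideal.Quotient.mk (Ideal.span {y ^ L}) (y ^ L) = 0 :=
    Ideal.Quotient.eq_zero_iff_mem.mpr (Ideal.mem_span_singleton_self _)
  rw [h3]
  simp

/-- (JA) generic reparametrisation of a discrete valuation ring with coefficient field:
`t ↦ a(T)`, `u_i ↦ b_i(T)`. -/
theorem ja_arc_pr {k0 O : Type} [Field k0] [CharZero k0] [CommRing O] [IsDomain O]
    [IsDiscreteValuationRing O] [Algebra k0 O] {q : ℕ} (u : Fin q → O)
    (hu : IsTranscendenceBasis k0 (fun i => IsLocalRing.residue O (u i)))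
    (t : O) (ht : Irreducible t) {κ : Type} [Field κ]
    [Algebra (IsLocalRing.ResidueField O) κ] (L : ℕ)
    (a : PowerSeries κ) (ha : PowerSeries.constantCoeff a = 0)
    (b : Fin q → PowerSeries κ)
    (hb : ∀ i, PowerSeries.constantCoeff (b i) =
      algebraMap (IsLocalRing.ResidueField O) κ (IsLocalRing.residue O (u i))) :
    ∃ Ψ : O →+* Tr κ L, Ψ t = tr L a ∧ (∀ i, Ψ (u i) = tr L (b i)) ∧
      ∀ c : k0, Ψ (algebraMap k0 O c) = tr L (PowerSeries.C
        (algebraMap (IsLocalRing.ResidueField O) κ
          (IsLocalRing.residue O (algebraMap k0 O c)))) := by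
  rcases Nat.eq_zero_or_pos L with hL | hL
  · subst hL
    have hsub : Subsingleton (Tr κ 0) := by
      apply Ideal.Quotient.subsingleton_iff.mpr
      rw [pow_zero, Ideal.span_singleton_one]
    exact ⟨(Ideal.Quotient.mk _).comp ((PowerSeries.C).comp
      ((algebraMap (IsLocalRing.ResidueField O) κ).comp (IsLocalRing.residue O))),
      Subsingleton.elim _ _, fun _ => Subsingleton.elim _ _, fun _ => Subsingleton.elim _ _⟩
  -- the two reductions
  have hL0 : L ≠ 0 := hL.ne'
  have hk1 : ∀ z ∈ Ideal.span {(PowerSeries.X : PowerSeries κ) ^ L},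
      PowerSeries.constantCoeff z = 0 := by
    intro z hz
    rw [Ideal.mem_span_singleton] at hz
    obtain ⟨w, rfl⟩ := hz
    rw [map_mul, map_pow, PowerSeries.constantCoeff_X, zero_pow hL0, zero_mul]
  have hk1' : RingHom.ker (PowerSeries.constantCoeff : PowerSeries κ →+* κ) ≤
      Ideal.span {(PowerSeries.X : PowerSeries κ)} := by
    intro z hz
    rw [Ideal.mem_span_singleton]
    exact PowerSeries.X_dvd_iff.mpr hz
  have ht0 : IsLocalRing.residue O t = 0 := by
    rw [IsLocalRing.residue_eq_zero_iff, ht.maximalIdeal_eq]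
    exact Ideal.mem_span_singleton_self _
  have hk2 : ∀ z ∈ Ideal.span {t ^ L}, IsLocalRing.residue O z = 0 := by
    intro z hz
    rw [Ideal.mem_span_singleton] at hz
    obtain ⟨w, rfl⟩ := hz
    rw [map_mul, map_pow, ht0, zero_pow hL0, zero_mul]
  have hk2' : RingHom.ker (IsLocalRing.residue O) ≤ Ideal.span {t} := by
    rw [IsLocalRing.ker_residue, ht.maximalIdeal_eq]
  obtain ⟨hn1, hn1'⟩ := ja_nil (PowerSeries.constantCoeff : PowerSeries κ →+* κ)
    PowerSeries.X L hk1' hk1
  obtain ⟨hn2, hn2'⟩ := ja_nil (IsLocalRing.residue O) t L hk2' hk2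
  set red1 := Ideal.Quotient.lift (Ideal.span {(PowerSeries.X : PowerSeries κ) ^ L})
    (PowerSeries.constantCoeff : PowerSeries κ →+* κ) hk1 with hred1
  set red2 := Ideal.Quotient.lift (Ideal.span {t ^ L}) (IsLocalRing.residue O) hk2 with hred2
  have hs1 : Function.Surjective
      (red1 : Tr κ L → κ) := by
    intro c
    exact ⟨tr L (PowerSeries.C c), by simp [hred1]⟩
  have hs2 : Function.Surjective red2 := by
    intro c
    obtain ⟨c, rfl⟩ := IsLocalRing.residue_surjective c
    exact ⟨Ideal.Quotient.mk _ c, by simp [hred2]⟩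
  -- the coefficient fields
  obtain ⟨s, hs, hsc, hsu⟩ := ja_lift (K := k0) _ hu red2 hs2 hn2'
    ((Ideal.Quotient.mk (Ideal.span {t ^ L})).comp (algebraMap k0 O))
    (fun i => Ideal.Quotient.mk (Ideal.span {t ^ L}) (u i)) (RingHom.id _)
    (fun x => by simp [hred2]; rfl) (fun i => by simp [hred2])
  obtain ⟨Φ, hΦ, hΦc, hΦu⟩ := ja_lift (K := k0) _ hu red1 hs1 hn1'
    (((Ideal.Quotient.mk (Ideal.span {(PowerSeries.X : PowerSeries κ) ^ L})).comp
      PowerSeries.C).comp ((algebraMap (IsLocalRing.ResidueField O) κ).comp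
        (algebraMap k0 (IsLocalRing.ResidueField O))))
    (fun i => tr L (b i)) (algebraMap (IsLocalRing.ResidueField O) κ)
    (fun x => by simp [hred1]) (fun i => by simp [hred1, hb])
  -- the parametrisations
  let g : Polynomial (IsLocalRing.ResidueField O) →+* O ⧸ Ideal.span {t ^ L} :=
    Polynomial.eval₂RingHom s (Ideal.Quotient.mk _ t)
  let h : Polynomial (IsLocalRing.ResidueField O) →+* Tr κ L :=
    Polynomial.eval₂RingHom Φ (tr L a)
  have htL : (Ideal.Quotient.mk (Ideal.span {t ^ L}) t) ^ L = 0 := by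
    rw [← map_pow]
    exact Ideal.Quotient.eq_zero_iff_mem.mpr (Ideal.mem_span_singleton_self _)
  have hgsurj : Function.Surjective g := by
    intro y
    have key : ∀ n : ℕ, ∃ (p : Polynomial (IsLocalRing.ResidueField O))
        (z : O ⧸ Ideal.span {t ^ L}), y = g p + (Ideal.Quotient.mk _ t) ^ n * z := by
      intro n
      induction n with
      | zero => exact ⟨0, y, by simp⟩
      | succ n ih =>
        obtain ⟨p, z, hz⟩ := ih
        have h1 : z - s (red2 z) ∈ RingHom.ker red2 := by
          rw [RingHom.mem_ker, map_sub, hs]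
          simp
        have h2 := hn2 h1
        rw [Ideal.mem_span_singleton] at h2
        obtain ⟨w, hw⟩ := h2
        refine ⟨p + Polynomial.C (red2 z) * Polynomial.X ^ n, w, ?_⟩
        have h3 : z = s (red2 z) + (Ideal.Quotient.mk _ t) * w := by
          rw [← hw]; ring
        have h4 : g (Polynomial.C (red2 z) * Polynomial.X ^ n) =
            s (red2 z) * (Ideal.Quotient.mk _ t) ^ n := by
          simp [g]
        rw [map_add, h4, hz]
        nth_rewrite 1 [h3]
        ring
    obtain ⟨p, z, hz⟩ := key L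
    rw [htL, zero_mul, add_zero] at hz
    exact ⟨p, hz.symm⟩
  have hker : RingHom.ker g ≤ RingHom.ker h := by
    intro p hp
    rw [RingHom.mem_ker] at hp ⊢
    -- `X ^ L ∣ p`
    have hdvd : Polynomial.X ^ L ∣ p := by
      by_contra hnd
      have hp0 : p ≠ 0 := fun h0 => hnd (h0 ▸ dvd_zero _)
      obtain ⟨p', hp', hp'0⟩ := Polynomial.exists_eq_pow_rootMultiplicity_mul_and_not_dvd p hp0 0
      set m := Polynomial.rootMultiplicity 0 p
      rw [Polynomial.C_0, sub_zero] at hp' hp'0
      have hm : m < L := by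
        by_contra hm
        push Not at hm
        apply hnd
        rw [hp']
        exact Dvd.dvd.mul_right (pow_dvd_pow _ hm) _
      have hc : p'.coeff 0 ≠ 0 := fun h0 => hp'0 (Polynomial.X_dvd_iff.mpr h0)
      -- `g p'` is a unit
      have hgr : red2.comp g = (Polynomial.constantCoeff) := by
        apply Polynomial.ringHom_ext
        · intro c
          simp [g, hs]
        · simp [g, hred2, ht0]
      have hunit : IsUnit (g p') := by
        obtain ⟨w, hw⟩ := Ideal.Quotient.mk_surjective (g p')
        have h1 : IsLocalRing.residue O w ≠ 0 := by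
          have h2 : red2 (g p') = p'.coeff 0 := by
            have := RingHom.congr_fun hgr p'
            simpa using this
          rw [← hw, hred2, Ideal.Quotient.lift_mk] at h2
          rw [h2]
          exact hc
        rw [← hw]
        exact ((IsLocalRing.residue_ne_zero_iff_isUnit w).mp h1).map _
      have h5 : (Ideal.Quotient.mk (Ideal.span {t ^ L}) t) ^ m = 0 := by
        have h6 : g p = (Ideal.Quotient.mk (Ideal.span {t ^ L}) t) ^ m * g p' := by
          rw [hp', map_mul]
          simp [g]
        rw [hp] at h6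
        exact (hunit.mul_left_eq_zero.mp h6.symm)
      rw [← map_pow, Ideal.Quotient.eq_zero_iff_mem, Ideal.mem_span_singleton] at h5
      have h7 := (pow_dvd_pow_iff ht.ne_zero ht.not_isUnit).mp h5
      omega
    obtain ⟨r, rfl⟩ := hdvd
    have haL : (tr L a) ^ L = 0 := by
      rw [← map_pow]
      refine Ideal.Quotient.eq_zero_iff_mem.mpr (Ideal.mem_span_singleton.mpr ?_)
      exact pow_dvd_pow_of_dvd (PowerSeries.X_dvd_iff.mpr ha) L
    rw [map_mul, map_pow]
    have : h Polynomial.X = tr L a := by simp [h]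
    rw [this, haL, zero_mul]
  let θ : O ⧸ Ideal.span {t ^ L} →+* Tr κ L := g.liftOfSurjective hgsurj ⟨h, hker⟩
  have hθ : ∀ p, θ (g p) = h p := fun p =>
    RingHom.liftOfSurjective_comp_apply g hgsurj ⟨h, hker⟩ p
  refine ⟨θ.comp (Ideal.Quotient.mk _), ?_, fun i => ?_, fun c => ?_⟩
  · have h1 : g Polynomial.X = Ideal.Quotient.mk _ t := by simp [g]
    have h2 : h Polynomial.X = tr L a := by simp [h]
    rw [RingHom.comp_apply, ← h1, hθ, h2]
  · have h1 : g (Polynomial.C (IsLocalRing.residue O (u i))) = Ideal.Quotient.mk _ (u i) := by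
      simp [g, hsu]
    have h2 : h (Polynomial.C (IsLocalRing.residue O (u i))) = tr L (b i) := by
      simp [h, hΦu]
    rw [RingHom.comp_apply, ← h1, hθ, h2]
  · have h1 : g (Polynomial.C (algebraMap k0 (IsLocalRing.ResidueField O) c)) =
        Ideal.Quotient.mk _ (algebraMap k0 O c) := by
      simp [g, hsc]
    have h2 : h (Polynomial.C (algebraMap k0 (IsLocalRing.ResidueField O) c)) =
        tr L (PowerSeries.C (algebraMap (IsLocalRing.ResidueField O) κ
          (IsLocalRing.residue O (algebraMap k0 O c)))) := by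
      simp only [h, Polynomial.coe_eval₂RingHom, Polynomial.eval₂_C, hΦc]
      rfl
    rw [RingHom.comp_apply, ← h1, hθ, h2]

alias ja_arc := ja_arc_pr

end Pool.Agent.KSS
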