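import Pool.Agent.Lib_helper77.KSSP.Base
import Mathlib.RingTheory.Smooth.Field
import Mathlib.RingTheory.Etale.Kaehler

namespace Pool.Agent.KSS

open MvPolynomial

open scoped IntermediateField.algebraAdjoinAdjoin in
theorem jb_etale {k0 κ ι : Type} [Field k0] [CharZero k0] [Field κ] [Algebra k0 κ]
    (z : ι → κ) (hz : IsTranscendenceBasis k0 z) :
    @Algebra.FormallyEtale (MvPolynomial ι k0) κ _ _
      (aeval z : MvPolynomial ι k0 →ₐ[k0] κ).toRingHom.toAlgebra := by
  let _ : Algebra (MvPolynomial ι k0) κ :=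
    (aeval z : MvPolynomial ι k0 →ₐ[k0] κ).toRingHom.toAlgebra
  let _ : Algebra (MvPolynomial ι k0) (Algebra.adjoin k0 (Set.range z)) :=
    (hz.1.aevalEquiv : MvPolynomial ι k0 ≃ₐ[k0] _).toAlgHom.toRingHom.toAlgebra
  have _ : IsScalarTower (MvPolynomial ι k0) (Algebra.adjoin k0 (Set.range z)) κ :=
    IsScalarTower.of_algebraMap_eq (fun p => by
      change aeval z p = ((hz.1.aevalEquiv p : Algebra.adjoin k0 (Set.range z)) : κ)
      simp)
  have _ : Algebra.FormallyEtale (MvPolynomial ι k0) (Algebra.adjoin k0 (Set.range z)) :=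
    Algebra.FormallyEtale.of_equiv (AlgEquiv.ofBijective
      (Algebra.ofId (MvPolynomial ι k0) (Algebra.adjoin k0 (Set.range z)))
      (hz.1.aevalEquiv.bijective))
  have _ : Algebra.FormallyEtale (Algebra.adjoin k0 (Set.range z))
      (IntermediateField.adjoin k0 (Set.range z)) :=
    Algebra.FormallyEtale.of_isLocalization (nonZeroDivisors _)
  have _ : Algebra.IsAlgebraic (IntermediateField.adjoin k0 (Set.range z)) κ :=
    hz.isAlgebraic_field
  have _ : Algebra.FormallyEtale (IntermediateField.adjoin k0 (Set.range z)) κ :=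
    Algebra.FormallyEtale.of_isSeparable _ κ
  have _ : Algebra.FormallyEtale (Algebra.adjoin k0 (Set.range z)) κ :=
    .comp _ (IntermediateField.adjoin k0 (Set.range z)) _
  exact .comp _ (Algebra.adjoin k0 (Set.range z)) _

open scoped TensorProduct in
theorem jb_deriv_pr {k0 κ ι : Type} [Field k0] [CharZero k0] [Field κ] [Algebra k0 κ]
    (z : ι → κ) (hz : IsTranscendenceBasis k0 z) (g : ι → κ) :
    ∃ D : Derivation k0 κ κ, ∀ i, D (z i) = g i := by
  let _ : Algebra (MvPolynomial ι k0) κ :=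
    (aeval z : MvPolynomial ι k0 →ₐ[k0] κ).toRingHom.toAlgebra
  have hst : IsScalarTower k0 (MvPolynomial ι k0) κ :=
    IsScalarTower.of_algebraMap_eq (fun c => by
      change algebraMap k0 κ c = aeval z (algebraMap k0 (MvPolynomial ι k0) c)
      simp)
  have _ : Algebra.FormallyEtale (MvPolynomial ι k0) κ := jb_etale z hz
  let δ : Derivation k0 (MvPolynomial ι k0) κ := mkDerivation k0 g
  let l : κ ⊗[MvPolynomial ι k0] (Ω[MvPolynomial ι k0⁄k0]) →ₗ[κ] κ :=
    LinearMap.liftBaseChange κ δ.liftKaehlerDifferential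
  let e := KaehlerDifferential.tensorKaehlerEquivOfFormallyEtale k0 (MvPolynomial ι k0) κ
  refine ⟨(l ∘ₗ e.symm.toLinearMap).compDer (KaehlerDifferential.D k0 κ), fun i => ?_⟩
  have h1 : z i = algebraMap (MvPolynomial ι k0) κ (X i) := by
    change z i = aeval z (X i)
    simp
  have h2 := KaehlerDifferential.tensorKaehlerEquivOfFormallyEtale_symm_D_algebraMap
    k0 (MvPolynomial ι k0) κ (X i)
  change l (e.symm (KaehlerDifferential.D k0 κ (z i))) = g i
  rw [h1, h2]
  simp [l, δ]

alias jb_deriv := jb_deriv_pr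

end Pool.Agent.KSS
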