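import Pool.Agent.Lib_helper77.KSSP.JB
/-!
# KSS block JC: few derivations kill the family `x`, so its transcendence degree is large
-/

namespace Pool.Agent.KSS

open MvPolynomial

/-- the constants of a derivation -/
def jc_const {k0 κ : Type} [Field k0] [Field κ] [Algebra k0 κ] (D : Derivation k0 κ κ) :
    IntermediateField k0 κ where
  carrier := {a | D a = 0}
  mul_mem' := by
    intro a b ha hb
    simp only [Set.mem_ofPred_eq] at *
    rw [Derivation.leibniz, ha, hb]
    simp
  add_mem' := by
    intro a b ha hb
    simp only [Set.mem_ofPred_eq] at *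
    rw [map_add, ha, hb, add_zero]
  algebraMap_mem' := by
    intro a
    simp
  inv_mem' := by
    intro a ha
    simp only [Set.mem_ofPred_eq] at *
    by_cases h0 : a = 0
    · simp [h0]
    · have h1 : D (a * a⁻¹) = 0 := by
        rw [mul_inv_cancel₀ h0]
        simp
      rw [Derivation.leibniz, ha, smul_zero, add_zero, smul_eq_mul] at h1
      exact (mul_eq_zero.1 h1).resolve_left h0

theorem jc_mem {k0 κ : Type} [Field k0] [Field κ] [Algebra k0 κ] (D : Derivation k0 κ κ)
    (a : κ) : a ∈ jc_const D ↔ D a = 0 := Iff.rfl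

/-- a derivation is linear over its constants -/
def jc_lin {k0 κ : Type} [Field k0] [Field κ] [Algebra k0 κ] (D : Derivation k0 κ κ) :
    Derivation (jc_const D) κ κ where
  toFun := D
  map_add' := map_add D
  map_smul' := by
    intro c a
    have hc : D (c : κ) = 0 := c.2
    have h1 : c • a = (c : κ) * a := rfl
    have h2 : (RingHom.id (jc_const D)) c • D a = (c : κ) * D a := rfl
    rw [h1, h2, Derivation.leibniz, hc, smul_zero, add_zero, smul_eq_mul]
  map_one_eq_zero' := by simp
  leibniz' := by
    intro a b
    exact D.leibniz a b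

theorem jc_kill {k0 κ : Type} [Field k0] [CharZero k0] [Field κ] [Algebra k0 κ]
    (D : Derivation k0 κ κ) (x : κ) (hx : IsAlgebraic (jc_const D) x) : D x = 0 := by
  have : CharZero (jc_const D) := by
    exact charZero_of_injective_algebraMap (FaithfulSMul.algebraMap_injective k0 (jc_const D))
  have hi : IsIntegral (jc_const D) x := hx.isIntegral
  have hirr := minpoly.irreducible hi
  have hsep : (minpoly (jc_const D) x).Separable := hirr.separable
  have h1 := (jc_lin D).map_aeval (minpoly (jc_const D) x) x
  rw [minpoly.aeval, map_zero] at h1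
  have h2 : Polynomial.aeval x (Polynomial.derivative (minpoly (jc_const D) x)) ≠ 0 :=
    hsep.aeval_derivative_ne_zero (minpoly.aeval _ _)
  rw [smul_eq_mul] at h1
  exact (mul_eq_zero.1 h1.symm).resolve_left h2

theorem jc_alg {k0 κ : Type} [Field k0] [CharZero k0] [Field κ] [Algebra k0 κ]
    (D : Derivation k0 κ κ) (u : Set κ) (hu : ∀ a ∈ u, D a = 0) (x : κ)
    (hx : IsAlgebraic (Algebra.adjoin k0 u) x) : D x = 0 := by
  apply jc_kill
  have hle : Algebra.adjoin k0 u ≤ (jc_const D).toSubalgebra :=
    Algebra.adjoin_le fun a ha => hu a ha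
  obtain ⟨P, hP, hP2⟩ := hx
  let φ : Algebra.adjoin k0 u →ₐ[k0] (jc_const D).toSubalgebra := Subalgebra.inclusion hle
  have hφ : Function.Injective φ := Subalgebra.inclusion_injective hle
  refine ⟨P.map (φ : Algebra.adjoin k0 u →+* (jc_const D).toSubalgebra), ?_, ?_⟩
  · exact (Polynomial.map_ne_zero_iff hφ).2 hP
  · rw [Polynomial.aeval_def, Polynomial.eval₂_map] 
    rw [Polynomial.aeval_def] at hP2
    exact hP2

/-- (JC) few derivations kill the family `x`, so its transcendence degree is large -/
theorem jc_tau_pr {k0 κ J : Type} [Field k0] [CharZero k0] [Field κ] [Algebra k0 κ] [Fintype J]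
    {ι : Type} [Fintype ι] (z : ι → κ) (hz : IsTranscendenceBasis k0 z) (x : J → κ) (ℓ : ℕ)
    (h : ∀ (m : ℕ) (D : Fin m → Derivation k0 κ κ), LinearIndependent κ D →
      (∀ i j, D i (x j) = 0) → m ≤ ℓ) :
    Fintype.card ι ≤ tau k0 x + ℓ := by
  classical
  -- a maximal independent subset
  have hemp : AlgebraicIndepOn k0 id (∅ : Set κ) := by
    have := (algebraicIndependent_empty_iff (R := k0) (A := κ)).2
      (FaithfulSMul.algebraMap_injective k0 κ)
    exact this
  obtain ⟨u, -, hu⟩ := exists_maximal_algebraicIndependent (R := k0) (∅ : Set κ) (Set.range x)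
    (Set.empty_subset _) hemp
  have hu1 : AlgebraicIndepOn k0 id u := hu.prop.1
  have hu2 : u ⊆ Set.range x := hu.prop.2
  have halg : ∀ j, x j ∉ u → IsAlgebraic (Algebra.adjoin k0 u) (x j) := by
    intro j hj
    by_contra hcon
    have h1 : AlgebraicIndepOn k0 id (insert (x j) u) := by
      apply AlgebraicIndepOn.insert hu1
      rw [Set.image_id]
      exact hcon
    have h2 : u = insert (x j) u := hu.eq_of_subset ⟨h1, Set.insert_subset ⟨j, rfl⟩ hu2⟩
      (Set.subset_insert _ _)
    exact hj (h2 ▸ Set.mem_insert (x j) u)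
  -- tau is large
  have hufin : u.Finite := (Set.finite_range x).subset hu2
  have : Fintype u := hufin.fintype
  have htau : Fintype.card u ≤ tau k0 x := by
    choose f hf using fun a : u => hu2 a.2
    have hfinj : Function.Injective f := by
      intro a b hab
      apply Subtype.ext
      rw [← hf a, ← hf b, hab]
    let S : Finset J := Finset.univ.map ⟨f, hfinj⟩
    have hS : S.card = Fintype.card u := by simp [S]
    have hmem : ∀ s : S, x s ∈ u := by
      rintro ⟨s, hs⟩
      simp only [S, Finset.mem_map, Finset.mem_univ, true_and, Function.Embedding.coeFn_mk] at hs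
      obtain ⟨a, rfl⟩ := hs
      simp only [hf]
      exact a.2
    have hginj : Function.Injective (fun s : S => (⟨x s, hmem s⟩ : u)) := by
      rintro ⟨s, hs⟩ ⟨s', hs'⟩ hss
      simp only [S, Finset.mem_map, Finset.mem_univ, true_and, Function.Embedding.coeFn_mk]
        at hs hs'
      obtain ⟨a, rfl⟩ := hs
      obtain ⟨b, rfl⟩ := hs'
      have : (a : κ) = b := by
        have := congrArg Subtype.val hss
        simpa [hf] using this
      have hab : a = b := Subtype.ext this
      subst hab
      rfl
    have hu1' : AlgebraicIndependent k0 (fun a : u => (a : κ)) := hu1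
    have hind : AlgebraicIndependent k0 (fun s : S => x s) :=
      hu1'.comp (fun s : S => (⟨x s, hmem s⟩ : u)) hginj
    unfold tau
    refine le_csSup ⟨Fintype.card J, ?_⟩ ⟨S, hS, hind⟩
    rintro n ⟨S', rfl, -⟩
    exact Finset.card_le_univ S'
  -- a transcendence basis containing u
  obtain ⟨t, hut, ht⟩ := exists_isTranscendenceBasis_superset hu1
  have hcard := hz.cardinalMk_eq ht
  have : Finite t := by
    rw [← Cardinal.mk_lt_aleph0_iff, ← hcard]
    exact Cardinal.mk_lt_aleph0
  have : Fintype t := Fintype.ofFinite t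
  have hcard2 : Fintype.card ι = Fintype.card t := by
    rw [Cardinal.mk_fintype, Cardinal.mk_fintype] at hcard
    exact_mod_cast hcard
  have hcard3 : Fintype.card t = Fintype.card u + Fintype.card (t \ u : Set κ) := by
    have h2 := Set.ncard_sdiff_add_ncard_of_subset hut (Set.toFinite t)
    rw [← Nat.card_coe_set_eq, ← Nat.card_coe_set_eq, ← Nat.card_coe_set_eq,
      Nat.card_eq_fintype_card, Nat.card_eq_fintype_card, Nat.card_eq_fintype_card] at h2
    omega
  -- the derivations
  have hD : ∀ y : (t \ u : Set κ), ∃ D : Derivation k0 κ κ, ∀ a : t,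
      D (a : κ) = if (a : κ) = y then 1 else 0 := by
    intro y
    exact jb_deriv (fun a : t => (a : κ)) ht (fun a : t => if (a : κ) = y then 1 else 0)
  choose D hD using hD
  let e := (Fintype.equivFin (t \ u : Set κ)).symm
  have hlin : LinearIndependent κ (fun i => D (e i)) := by
    rw [Fintype.linearIndependent_iff]
    intro g hg i
    have h1 := congrFun (congrArg Derivation.coeFnAddMonoidHom hg) ((e i : (t \ u : Set κ)) : κ)
    rw [map_sum, Finset.sum_apply, Finset.sum_eq_single i] at h1
    · have h2 := hD (e i) ⟨(e i : (t \ u : Set κ)), (e i).2.1⟩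
      simp only [Derivation.coeFnAddMonoidHom] at h1
      simpa [h2] using h1
    · intro j _ hj
      have h2 := hD (e j) ⟨(e i : (t \ u : Set κ)), (e i).2.1⟩
      have h3 : ((e i : (t \ u : Set κ)) : κ) ≠ ((e j : (t \ u : Set κ)) : κ) := by
        intro h
        exact hj (e.injective (Subtype.ext h.symm))
      simp only [Derivation.coeFnAddMonoidHom]
      simp [h2, h3]
    · intro h
      exact absurd (Finset.mem_univ _) h
  have hm := h _ (fun i => D (e i)) hlin ?_
  · omega
  · intro i j
    have hDu : ∀ a ∈ u, D (e i) a = 0 := by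
      intro a ha
      have h2 := hD (e i) ⟨a, hut ha⟩
      simp only at h2
      rw [h2, if_neg]
      rintro rfl
      exact (e i).2.2 ha
    by_cases hj : x j ∈ u
    · exact hDu _ hj
    · exact jc_alg (D (e i)) u hDu (x j) (halg j hj)

alias jc_tau := jc_tau_pr

end Pool.Agent.KSS
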