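import Pool.Agent.Lib_helper77.KSSP.Base
/-!
# KSS, block JD: homomorphisms of a module of finite length into truncated power series
-/

namespace Pool.Agent.KSS

/-- the annihilator of the class of `a` (a series of order one) is spanned by the class of
`X^(L-1)` -/
theorem jd_ann {κ : Type} [Field κ] (L : ℕ) (a : PowerSeries κ)
    (ha0 : PowerSeries.constantCoeff a = 0) (ha1 : PowerSeries.coeff 1 a ≠ 0)
    (w : Tr κ L) (hw : tr L a * w = 0) :
    w ∈ Submodule.span κ {tr L ((PowerSeries.X : PowerSeries κ) ^ (L - 1))} := by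
  obtain ⟨b, rfl⟩ := Ideal.Quotient.mk_surjective w
  rw [← map_mul, Ideal.Quotient.eq_zero_iff_mem, Ideal.mem_span_singleton] at hw
  rcases Nat.eq_zero_or_pos L with hL | hL
  · subst hL
    have h0 : (Ideal.Quotient.mk (Ideal.span {(PowerSeries.X : PowerSeries κ) ^ 0})) b = 0 := by
      rw [Ideal.Quotient.eq_zero_iff_mem, Ideal.mem_span_singleton, pow_zero]
      exact one_dvd b
    rw [h0]
    exact Submodule.zero_mem _
  · obtain ⟨n, rfl⟩ : ∃ n, L = n + 1 := ⟨L - 1, by omega⟩
    obtain ⟨u, hu⟩ := PowerSeries.X_dvd_iff.2 ha0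
    have hu1 : PowerSeries.constantCoeff u ≠ 0 := by
      intro h
      apply ha1
      rw [hu, show (1 : ℕ) = 0 + 1 from rfl, PowerSeries.coeff_succ_X_mul,
        PowerSeries.coeff_zero_eq_constantCoeff_apply, h]
    have huu : IsUnit u := by
      rw [PowerSeries.isUnit_iff_constantCoeff]
      exact isUnit_iff_ne_zero.2 hu1
    have h1 : (PowerSeries.X : PowerSeries κ) ^ n ∣ u * b := by
      rw [hu, mul_assoc, pow_succ', mul_dvd_mul_iff_left PowerSeries.X_ne_zero] at hw
      exact hw
    have h2 : (PowerSeries.X : PowerSeries κ) ^ n ∣ b := (huu.dvd_mul_left).1 h1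
    obtain ⟨c, hc⟩ := h2
    rw [Submodule.mem_span_singleton]
    refine ⟨PowerSeries.constantCoeff c, ?_⟩
    have h3 : PowerSeries.constantCoeff
        (PowerSeries.C (PowerSeries.constantCoeff c) - c) = 0 := by simp
    obtain ⟨e, he⟩ := PowerSeries.X_dvd_iff.2 h3
    have h4 : (PowerSeries.constantCoeff c) • tr (n + 1) ((PowerSeries.X : PowerSeries κ) ^ n)
        = tr (n + 1) ((PowerSeries.constantCoeff c) • (PowerSeries.X : PowerSeries κ) ^ n) := rfl
    rw [show n + 1 - 1 = n from rfl, h4]
    refine (Ideal.Quotient.eq).2 ?_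
    rw [Ideal.mem_span_singleton]
    refine ⟨e, ?_⟩
    rw [hc, PowerSeries.smul_eq_C_mul, pow_succ, mul_assoc, ← he]
    ring

/-- the bound on the rank of the space of semilinear maps -/
theorem jd_rank {O κ : Type} [CommRing O] [IsDomain O] [IsDiscreteValuationRing O]
    (t : O) (ht : Irreducible t) [Field κ] (L : ℕ) (Ψ : O →+* Tr κ L)
    (a : PowerSeries κ) (ha0 : PowerSeries.constantCoeff a = 0)
    (ha1 : PowerSeries.coeff 1 a ≠ 0) (hΨ : Ψ t = tr L a) :
    ∀ (ℓ : ℕ) (M : Type) [AddCommGroup M] [Module O M], Module.length O M = ℓ →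
      Module.rank κ (M →ₛₗ[Ψ] Tr κ L) ≤ ℓ := by
  intro ℓ
  induction ℓ with
  | zero =>
    intro M _ _ hM
    have hs : Subsingleton M := Module.length_eq_zero_iff.1 (by simpa using hM)
    have : Subsingleton (M →ₛₗ[Ψ] Tr κ L) := by
      constructor
      intro f g
      ext x
      rw [Subsingleton.elim x 0, map_zero, map_zero]
    rw [rank_subsingleton']
    simp
  | succ ℓ ih =>
    intro M _ _ hM
    have hne : Module.length O M ≠ ⊤ := by rw [hM]; exact ENat.natCast_ne_top _
    have hfl := Module.length_ne_top_iff.1 hne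
    obtain ⟨hN, hA⟩ := isFiniteLength_iff_isNoetherian_isArtinian.1 hfl
    have hnt : Nontrivial M := by
      rw [← Module.length_pos_iff (R := O), hM]
      exact_mod_cast Nat.succ_pos ℓ
    obtain ⟨N, hNc⟩ : ∃ N : Submodule O M, IsCoatom N := by
      obtain ⟨N, hN1, -⟩ := (eq_top_or_exists_le_coatom (⊥ : Submodule O M)).resolve_left bot_ne_top
      exact ⟨N, hN1⟩
    have hsimple : IsSimpleModule O (M ⧸ N) := (isSimpleModule_iff_isCoatom).2 hNc
    have hlen : Module.length O M = Module.length O N + Module.length O (M ⧸ N) :=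
      Module.length_eq_add_of_exact N.subtype N.mkQ N.subtype_injective N.mkQ_surjective
        (LinearMap.exact_subtype_mkQ N)
    have hNl : Module.length O N = ℓ := by
      have h1 : Module.length O (M ⧸ N) = 1 := Module.length_eq_one O (M ⧸ N)
      rw [hM, h1] at hlen
      have h2 : ((ℓ : ℕ∞)) + 1 = Module.length O N + 1 := by
        rw [← hlen]; push_cast; rfl
      exact (ENat.add_left_injective_of_ne_top (n := 1) (by simp) h2).symm
    -- the class of an element outside `N`
    obtain ⟨x, hx⟩ : ∃ x : M, x ∉ N := by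
      by_contra h
      push Not at h
      exact hNc.1 (Submodule.eq_top_iff'.2 h)
    -- `t` kills the quotient
    have htk : ∀ y : M, t • y ∈ N := by
      intro y
      obtain ⟨I, hI, ⟨e⟩⟩ := isSimpleModule_iff_quot_maximal.1 hsimple
      have hIm : I = IsLocalRing.maximalIdeal O := IsLocalRing.eq_maximalIdeal hI
      have htI : t ∈ I := by
        rw [hIm, IsLocalRing.mem_maximalIdeal]
        exact ht.not_isUnit
      rw [← Submodule.Quotient.mk_eq_zero, Submodule.Quotient.mk_smul]
      apply e.injective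
      rw [map_smul, map_zero]
      obtain ⟨z, hz⟩ := Ideal.Quotient.mk_surjective (e (Submodule.Quotient.mk y))
      rw [← hz, ← map_zero (Ideal.Quotient.mk I)]
      have : t • (Ideal.Quotient.mk I) z = (Ideal.Quotient.mk I) (t * z) := rfl
      rw [this]
      rw [map_zero, Ideal.Quotient.eq_zero_iff_mem]
      exact I.mul_mem_right _ htI
    -- restriction
    let r : (M →ₛₗ[Ψ] Tr κ L) →ₗ[κ] (N →ₛₗ[Ψ] Tr κ L) :=
      { toFun := fun f => f.comp N.subtype
        map_add' := fun f g => rfl
        map_smul' := fun c f => rfl }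
    have hr := LinearMap.rank_range_add_rank_ker r
    have h1 : Module.rank κ (LinearMap.range r) ≤ ℓ :=
      (Submodule.rank_le _).trans (ih N hNl)
    have h2 : Module.rank κ (LinearMap.ker r) ≤ 1 := by
      let s : (LinearMap.ker r) →ₗ[κ]
          (Submodule.span κ {tr L ((PowerSeries.X : PowerSeries κ) ^ (L - 1))}) :=
        { toFun := fun f => ⟨(f : M →ₛₗ[Ψ] Tr κ L) x, by
            apply jd_ann L a ha0 ha1
            rw [← hΨ]
            have h3 : (f : M →ₛₗ[Ψ] Tr κ L) (t • x) = 0 := by
              have h4 : r (f : M →ₛₗ[Ψ] Tr κ L) = 0 := f.2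
              have h5 := LinearMap.congr_fun h4 ⟨t • x, htk x⟩
              exact h5
            rw [← h3, LinearMap.map_smulₛₗ]
            rfl⟩
          map_add' := fun f g => rfl
          map_smul' := fun c f => rfl }
      have hs : Function.Injective s := by
        rw [injective_iff_map_eq_zero]
        intro f hf
        apply Subtype.ext
        apply LinearMap.ext
        intro y
        have hfx : (f : M →ₛₗ[Ψ] Tr κ L) x = 0 := congrArg Subtype.val hf
        have hfN : ∀ z ∈ N, (f : M →ₛₗ[Ψ] Tr κ L) z = 0 := by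
          intro z hz
          have h4 : r (f : M →ₛₗ[Ψ] Tr κ L) = 0 := f.2
          exact LinearMap.congr_fun h4 ⟨z, hz⟩
        have hsp : Submodule.span O {x} ⊔ N = ⊤ := by
          apply hNc.2
          refine lt_of_le_of_ne le_sup_right ?_
          intro h
          apply hx
          rw [h]
          exact Submodule.mem_sup_left (Submodule.mem_span_singleton_self x)
        have hy : y ∈ Submodule.span O {x} ⊔ N := by rw [hsp]; trivial
        obtain ⟨p, hp, z, hz, rfl⟩ := Submodule.mem_sup.1 hy
        obtain ⟨c, rfl⟩ := Submodule.mem_span_singleton.1 hp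
        rw [map_add, hfN z hz, LinearMap.map_smulₛₗ, hfx, smul_zero, add_zero]
        rfl
      calc Module.rank κ (LinearMap.ker r)
          ≤ Module.rank κ (Submodule.span κ {tr L ((PowerSeries.X : PowerSeries κ) ^ (L - 1))}) :=
            LinearMap.rank_le_of_injective s hs
        _ ≤ 1 := by
            have := rank_span_le (R := κ) ({tr L ((PowerSeries.X : PowerSeries κ) ^ (L - 1))})
            simpa using this
    rw [← hr]
    push_cast
    exact add_le_add h1 h2

/-- (JD) homomorphisms of a module of length `ℓ` into the truncated power series -/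
theorem jd_length_pr {O κ : Type} [CommRing O] [IsDomain O] [IsDiscreteValuationRing O]
    (t : O) (ht : Irreducible t) [Field κ] (L : ℕ) (Ψ : O →+* Tr κ L)
    (a : PowerSeries κ) (ha0 : PowerSeries.constantCoeff a = 0)
    (ha1 : PowerSeries.coeff 1 a ≠ 0) (hΨ : Ψ t = tr L a)
    (M : Type) [AddCommGroup M] [Module O M] (ℓ : ℕ) (hℓ : Module.length O M = ℓ)
    (m : ℕ) (g : Fin m → (M →ₛₗ[Ψ] Tr κ L)) (hg : LinearIndependent κ g) : m ≤ ℓ := by
  have h1 := hg.cardinal_le_rank
  have h2 := jd_rank t ht L Ψ a ha0 ha1 hΨ ℓ M hℓ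
  have h3 := h1.trans h2
  simpa using h3

alias jd_length := jd_length_pr

end Pool.Agent.KSS
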