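import Pool.Agent.Lib_helper77.KSSP.JA
import Pool.Agent.Lib_helper77.KSSP.JC
import Pool.Agent.Lib_helper77.KSSP.JD
/-!
# KSS block JE: generic jets of a divisorial valuation

The lemmas `je_const`, `je_lin`, `je_kill`, `je_alg` are copies of lemmas of block JC (helper59).
-/

namespace Pool.Agent.KSS

open MvPolynomial

/-! ### constants of a derivation -/

/-- the constants of a derivation -/
def je_const {k0 κ : Type} [Field k0] [Field κ] [Algebra k0 κ] (D : Derivation k0 κ κ) :
    IntermediateField k0 κ where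
  carrier := {a | D a = 0}
  mul_mem' := by
    intro a b ha hb
    simp only [Set.mem_ofPred_eq] at *
    rw [Derivation.leibniz, ha, hb]
    simp
  add_mem' := by
    intro a b ha hb
    simp only [Set.mem_ofPred_eq] at *
    rw [map_add, ha, hb, add_zero]
  algebraMap_mem' := by
    intro a
    simp
  inv_mem' := by
    intro a ha
    simp only [Set.mem_ofPred_eq] at *
    by_cases h0 : a = 0
    · simp [h0]
    · have h1 : D (a * a⁻¹) = 0 := by
        rw [mul_inv_cancel₀ h0]
        simp
      rw [Derivation.leibniz, ha, smul_zero, add_zero, smul_eq_mul] at h1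
      exact (mul_eq_zero.1 h1).resolve_left h0

/-- a derivation is linear over its constants -/
def je_lin {k0 κ : Type} [Field k0] [Field κ] [Algebra k0 κ] (D : Derivation k0 κ κ) :
    Derivation (je_const D) κ κ where
  toFun := D
  map_add' := map_add D
  map_smul' := by
    intro c a
    have hc : D (c : κ) = 0 := c.2
    have h1 : c • a = (c : κ) * a := rfl
    have h2 : (RingHom.id (je_const D)) c • D a = (c : κ) * D a := rfl
    rw [h1, h2, Derivation.leibniz, hc, smul_zero, add_zero, smul_eq_mul]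
  map_one_eq_zero' := by simp
  leibniz' := by
    intro a b
    exact D.leibniz a b

theorem je_kill {k0 κ : Type} [Field k0] [CharZero k0] [Field κ] [Algebra k0 κ]
    (D : Derivation k0 κ κ) (x : κ) (hx : IsAlgebraic (je_const D) x) : D x = 0 := by
  have : CharZero (je_const D) := by
    exact charZero_of_injective_algebraMap (FaithfulSMul.algebraMap_injective k0 (je_const D))
  have hi : IsIntegral (je_const D) x := hx.isIntegral
  have hirr := minpoly.irreducible hi
  have hsep : (minpoly (je_const D) x).Separable := hirr.separable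
  have h1 := (je_lin D).map_aeval (minpoly (je_const D) x) x
  rw [minpoly.aeval, map_zero] at h1
  have h2 : Polynomial.aeval x (Polynomial.derivative (minpoly (je_const D) x)) ≠ 0 :=
    hsep.aeval_derivative_ne_zero (minpoly.aeval _ _)
  rw [smul_eq_mul] at h1
  exact (mul_eq_zero.1 h1.symm).resolve_left h2

theorem je_alg {k0 κ : Type} [Field k0] [CharZero k0] [Field κ] [Algebra k0 κ]
    (D : Derivation k0 κ κ) (u : Set κ) (hu : ∀ a ∈ u, D a = 0) (x : κ)
    (hx : IsAlgebraic (Algebra.adjoin k0 u) x) : D x = 0 := by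
  apply je_kill
  have hle : Algebra.adjoin k0 u ≤ (je_const D).toSubalgebra :=
    Algebra.adjoin_le fun a ha => hu a ha
  obtain ⟨P, hP, hP2⟩ := hx
  let φ : Algebra.adjoin k0 u →ₐ[k0] (je_const D).toSubalgebra := Subalgebra.inclusion hle
  have hφ : Function.Injective φ := Subalgebra.inclusion_injective hle
  refine ⟨P.map (φ : Algebra.adjoin k0 u →+* (je_const D).toSubalgebra), ?_, ?_⟩
  · exact (Polynomial.map_ne_zero_iff hφ).2 hP
  · rw [Polynomial.aeval_def, Polynomial.eval₂_map]
    rw [Polynomial.aeval_def] at hP2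
    exact hP2

/-- a derivation which kills a transcendence basis is zero -/
theorem je_zero {k0 κ ι : Type} [Field k0] [CharZero k0] [Field κ] [Algebra k0 κ]
    (D : Derivation k0 κ κ) (z : ι → κ) (hz : IsTranscendenceBasis k0 z)
    (h : ∀ i, D (z i) = 0) : D = 0 := by
  ext a
  refine je_alg D (Set.range z) ?_ a ?_
  · rintro _ ⟨i, rfl⟩
    exact h i
  · exact hz.isAlgebraic.isAlgebraic a

/-! ### derivations acting on coefficients -/

section

variable {k0 κ : Type} [Field k0] [Field κ] [Algebra k0 κ]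

/-- coefficientwise derivation -/
noncomputable def je_DD (D : Derivation k0 κ κ) (f : PowerSeries κ) : PowerSeries κ :=
  PowerSeries.mk fun n => D (PowerSeries.coeff n f)

theorem je_DD_coeff (D : Derivation k0 κ κ) (f : PowerSeries κ) (n : ℕ) :
    PowerSeries.coeff n (je_DD D f) = D (PowerSeries.coeff n f) := PowerSeries.coeff_mk _ _

theorem je_DD_add (D : Derivation k0 κ κ) (f g : PowerSeries κ) :
    je_DD D (f + g) = je_DD D f + je_DD D g := by
  ext n
  simp only [je_DD_coeff, map_add]

theorem je_DD_mul (D : Derivation k0 κ κ) (f g : PowerSeries κ) :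
    je_DD D (f * g) = f * je_DD D g + g * je_DD D f := by
  ext n
  rw [mul_comm g, map_add, je_DD_coeff, PowerSeries.coeff_mul, PowerSeries.coeff_mul,
    PowerSeries.coeff_mul, map_sum, ← Finset.sum_add_distrib]
  refine Finset.sum_congr rfl fun p _ => ?_
  rw [Derivation.leibniz, je_DD_coeff, je_DD_coeff, smul_eq_mul, smul_eq_mul]
  ring

theorem je_DD_C (D : Derivation k0 κ κ) (c : κ) :
    je_DD D (PowerSeries.C c) = PowerSeries.C (D c) := by
  ext n
  rw [je_DD_coeff, PowerSeries.coeff_C, PowerSeries.coeff_C]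
  split_ifs with h
  · rfl
  · simp

theorem je_DD_X (D : Derivation k0 κ κ) (L : ℕ) :
    je_DD D ((PowerSeries.X : PowerSeries κ) ^ L) = 0 := by
  ext n
  rw [je_DD_coeff, PowerSeries.coeff_X_pow]
  split_ifs <;> simp

/-! ### truncation -/

theorem je_tr_eq {L : ℕ} {f g : PowerSeries κ} :
    tr L f = tr L g ↔ (PowerSeries.X : PowerSeries κ) ^ L ∣ f - g := by
  rw [Ideal.Quotient.eq, Ideal.mem_span_singleton]

theorem je_tr_zero {L : ℕ} {f : PowerSeries κ} :
    tr L f = 0 ↔ ∀ n < L, PowerSeries.coeff n f = 0 := by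
  rw [Ideal.Quotient.eq_zero_iff_mem, Ideal.mem_span_singleton, PowerSeries.X_pow_dvd_iff]

theorem je_tr_coeff {L : ℕ} {f g : PowerSeries κ} :
    tr L f = tr L g ↔ ∀ n < L, PowerSeries.coeff n f = PowerSeries.coeff n g := by
  rw [je_tr_eq, PowerSeries.X_pow_dvd_iff]
  simp only [map_sub, sub_eq_zero]

theorem je_tr_DD (D : Derivation k0 κ κ) {L : ℕ} {f g : PowerSeries κ} (h : tr L f = tr L g) :
    tr L (je_DD D f) = tr L (je_DD D g) := by
  rw [je_tr_coeff] at h ⊢
  intro n hn
  rw [je_DD_coeff, je_DD_coeff, h n hn]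

theorem je_tr_surj {L : ℕ} (a : Tr κ L) : ∃ f : PowerSeries κ, tr L f = a :=
  Ideal.Quotient.mk_surjective a

theorem je_tr_add {L : ℕ} (f g : PowerSeries κ) : tr L (f + g) = tr L f + tr L g := rfl

theorem je_tr_mul {L : ℕ} (f g : PowerSeries κ) : tr L (f * g) = tr L f * tr L g := rfl

theorem je_tr_pow {L : ℕ} (f : PowerSeries κ) (n : ℕ) : tr L (f ^ n) = tr L f ^ n := rfl

theorem je_tr_sum {L : ℕ} {ι : Type} (s : Finset ι) (f : ι → PowerSeries κ) :
    tr L (∑ i ∈ s, f i) = ∑ i ∈ s, tr L (f i) := map_sum (Ideal.Quotient.mk _) _ _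

theorem je_tr_smul {L : ℕ} (r : κ) (f : PowerSeries κ) :
    r • tr L f = tr L (PowerSeries.C r * f) := by
  rw [← PowerSeries.smul_eq_C_mul]
  rfl

/-- `DD ∘ Ψ` -/
noncomputable def je_del {O : Type} [CommRing O] (D : Derivation k0 κ κ) {L : ℕ}
    (Ψ : O →+* Tr κ L) (o : O) : Tr κ L :=
  tr L (je_DD D (Classical.choose (je_tr_surj (Ψ o))))

theorem je_del_eq {O : Type} [CommRing O] (D : Derivation k0 κ κ) {L : ℕ}
    (Ψ : O →+* Tr κ L) (o : O) (f : PowerSeries κ) (h : tr L f = Ψ o) :
    je_del D Ψ o = tr L (je_DD D f) := by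
  unfold je_del
  apply je_tr_DD
  rw [h]
  exact Classical.choose_spec (je_tr_surj (Ψ o))

theorem je_del_add {O : Type} [CommRing O] (D : Derivation k0 κ κ) {L : ℕ}
    (Ψ : O →+* Tr κ L) (a b : O) : je_del D Ψ (a + b) = je_del D Ψ a + je_del D Ψ b := by
  obtain ⟨f, hf⟩ := je_tr_surj (Ψ a)
  obtain ⟨g, hg⟩ := je_tr_surj (Ψ b)
  rw [je_del_eq D Ψ a f hf, je_del_eq D Ψ b g hg, je_del_eq D Ψ (a + b) (f + g)
    (by rw [je_tr_add, map_add, hf, hg]), je_DD_add, je_tr_add]

theorem je_del_mul {O : Type} [CommRing O] (D : Derivation k0 κ κ) {L : ℕ}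
    (Ψ : O →+* Tr κ L) (a b : O) :
    je_del D Ψ (a * b) = Ψ a * je_del D Ψ b + Ψ b * je_del D Ψ a := by
  obtain ⟨f, hf⟩ := je_tr_surj (Ψ a)
  obtain ⟨g, hg⟩ := je_tr_surj (Ψ b)
  rw [je_del_eq D Ψ a f hf, je_del_eq D Ψ b g hg, je_del_eq D Ψ (a * b) (f * g)
    (by rw [je_tr_mul, map_mul, hf, hg]), je_DD_mul, je_tr_add, je_tr_mul, je_tr_mul, hf, hg]

end

/-- derivations over `B` as semilinear maps -/
theorem je_sl {B O R : Type} [CommRing B] [CommRing O] [Algebra B O] [CommRing R]
    (Ψ : O →+* R) (δ : O → R) (hadd : ∀ a b, δ (a + b) = δ a + δ b)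
    (hmul : ∀ a b, δ (a * b) = Ψ a * δ b + Ψ b * δ a) (hB : ∀ b : B, δ (algebraMap B O b) = 0) :
    ∃ g : (Ω[O⁄B]) →ₛₗ[Ψ] R, ∀ o, g (KaehlerDifferential.D B O o) = δ o := by
  let mO : Module O R := Module.compHom R Ψ
  let mB : Module B R := Module.compHom R (Ψ.comp (algebraMap B O))
  have hsO : ∀ (o : O) (r : R), o • r = Ψ o * r := fun _ _ => rfl
  have hsB : ∀ (b : B) (r : R), b • r = Ψ (algebraMap B O b) * r := fun _ _ => rfl
  have : IsScalarTower B O R := ⟨fun b o r => by
    rw [hsO, hsB, hsO, Algebra.smul_def, map_mul, mul_assoc]⟩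
  let d : Derivation B O R := Derivation.mk'
    { toFun := δ
      map_add' := hadd
      map_smul' := by
        intro b o
        rw [Algebra.smul_def, hmul, hB, mul_zero, add_zero]
        rfl }
    (by
      intro a b
      exact hmul a b)
  refine ⟨{ toFun := d.liftKaehlerDifferential
            map_add' := map_add _
            map_smul' := by
              intro o w
              rw [map_smul]
              rfl }, ?_⟩
  intro o
  exact d.liftKaehlerDifferential_comp_D o

/-- homogeneity -/
theorem je_hom {σ k R : Type} [CommRing k] [CommRing R] (f : k →+* R) (g : σ → R) (r : R)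
    {m : ℕ} {s : MvPolynomial σ k} (hs : s.IsHomogeneous m) :
    eval₂ f (fun i => r * g i) s = r ^ m * eval₂ f g s := by
  rw [eval₂_eq, eval₂_eq, Finset.mul_sum]
  refine Finset.sum_congr rfl fun d hd => ?_
  have h1 : ∑ i ∈ d.support, d i = m := by
    have := hs (mem_support_iff.1 hd)
    rw [← this]
    simp [Finsupp.weight_apply, Finsupp.sum]
  have h2 : ∏ i ∈ d.support, (r * g i) ^ d i = r ^ m * ∏ i ∈ d.support, g i ^ d i := by
    rw [← h1, ← Finset.prod_pow_eq_pow_sum, ← Finset.prod_mul_distrib]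
    exact Finset.prod_congr rfl fun i _ => mul_pow _ _ _
  rw [h2]
  ring

/-! ### the generic jet -/

section core

variable {k0 : Type} [Field k0] [CharZero k0] {N : ℕ} (j : Fin N)
    (B O : Type) [CommRing B] [Algebra k0 B] [CommRing O] [IsDomain O]
    [IsDiscreteValuationRing O] [Algebra k0 O] [Algebra B O] [IsScalarTower k0 B O]

/-- the series `a` -/
noncomputable def je_a {κ : Type} [Field κ] (L' : ℕ) (w : Fin L' → κ) : PowerSeries κ :=
  PowerSeries.mk fun n => match n with
    | 0 => 0
    | n + 1 => if h : n < L' then w ⟨n, h⟩ else if n = L' then 1 else 0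

/-- the series `b_i` -/
noncomputable def je_b {κ : Type} [Field κ] (L' : ℕ) (b0 : κ) (w : Fin L' → κ) :
    PowerSeries κ :=
  PowerSeries.mk fun n => match n with
    | 0 => b0
    | n + 1 => if h : n < L' then w ⟨n, h⟩ else 0

/-- the series `c` -/
noncomputable def je_c {κ : Type} [Field κ] (L : ℕ) (w : Fin L → κ) : PowerSeries κ :=
  PowerSeries.mk fun n => if h : n < L then w ⟨n, h⟩ else 0

theorem je_a0 {κ : Type} [Field κ] (L' : ℕ) (w : Fin L' → κ) :
    PowerSeries.constantCoeff (je_a L' w) = 0 := by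
  rw [← PowerSeries.coeff_zero_eq_constantCoeff_apply]
  unfold je_a
  rw [PowerSeries.coeff_mk]

theorem je_a_coeff {κ : Type} [Field κ] (L' : ℕ) (w : Fin L' → κ) (i : Fin L') :
    PowerSeries.coeff (i + 1) (je_a L' w) = w i := by
  unfold je_a
  rw [PowerSeries.coeff_mk]
  simp

theorem je_a1 {κ : Type} [Field κ] (L' : ℕ) (w : Fin L' → κ) (hw : ∀ i, w i ≠ 0) :
    PowerSeries.coeff 1 (je_a L' w) ≠ 0 := by
  unfold je_a
  rw [PowerSeries.coeff_mk]
  rcases Nat.eq_zero_or_pos L' with h | h
  · subst h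
    simp
  · simp only
    rw [dif_pos h]
    exact hw _

theorem je_b0 {κ : Type} [Field κ] (L' : ℕ) (b0 : κ) (w : Fin L' → κ) :
    PowerSeries.constantCoeff (je_b L' b0 w) = b0 := by
  rw [← PowerSeries.coeff_zero_eq_constantCoeff_apply]
  unfold je_b
  rw [PowerSeries.coeff_mk]

theorem je_b_coeff {κ : Type} [Field κ] (L' : ℕ) (b0 : κ) (w : Fin L' → κ) (i : Fin L') :
    PowerSeries.coeff (i + 1) (je_b L' b0 w) = w i := by
  unfold je_b
  rw [PowerSeries.coeff_mk]
  simp

theorem je_c_coeff {κ : Type} [Field κ] (L : ℕ) (w : Fin L → κ) (i : Fin L) :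
    PowerSeries.coeff i (je_c L w) = w i := by
  unfold je_c
  rw [PowerSeries.coeff_mk]
  simp

theorem je_arc_coeff {κ : Type} [Field κ] {L : ℕ} (w : Fin L → κ) (i : Fin L) :
    PowerSeries.coeff i (arc w) = w i := by
  unfold arc
  rw [PowerSeries.coeff_mk]
  simp

theorem je_core (π : MvPolynomial (Fin N) k0 →ₐ[k0] B) (hπ : Function.Surjective π)
    (hj : π (X j) = 1) (q L' L : ℕ) (hL : L = L' + 1) (ℓ : ℕ)
    (hℓ : Module.length O (Ω[O⁄B]) = ℓ)
    (u : Fin q → O) (hu : IsTranscendenceBasis k0 (fun i => IsLocalRing.residue O (u i)))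
    (t : O) (ht : Irreducible t)
    (κ : Type) [Field κ] [Algebra k0 κ] [Algebra (IsLocalRing.ResidueField O) κ]
    [IsScalarTower k0 (IsLocalRing.ResidueField O) κ]
    (w : Fin L' ⊕ ((Fin q × Fin L') ⊕ Fin L) → κ)
    (hw : IsTranscendenceBasis (IsLocalRing.ResidueField O) w) :
    ∃ x : Fin N → Fin L → κ, (∀ μ, x j μ ≠ 0) ∧
      (∀ (m l : ℕ) (s : MvPolynomial (Fin N) k0), s.IsHomogeneous m → l ≤ L →
        algebraMap B O (π s) ∈ IsLocalRing.maximalIdeal O ^ l →
        (PowerSeries.X : PowerSeries κ) ^ l ∣ ev x s) ∧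
      (q + 2) * L ≤ tauJ k0 x + 1 + ℓ := by
  classical
  have hL0 : 0 < L := by omega
  have hw0 : ∀ p, w p ≠ 0 := fun p => hw.1.ne_zero p
  set a := je_a L' (fun i => w (Sum.inl i)) with ha
  set b : Fin q → PowerSeries κ := fun i => je_b L'
    (algebraMap (IsLocalRing.ResidueField O) κ (IsLocalRing.residue O (u i)))
    (fun μ => w (Sum.inr (Sum.inl (i, μ)))) with hb
  set c := je_c L (fun μ => w (Sum.inr (Sum.inr μ))) with hc
  obtain ⟨Ψ, hΨt, hΨu, hΨc⟩ := ja_arc u hu t ht (κ := κ) L a (je_a0 _ _) b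
    (fun i => je_b0 _ _ _)
  have hΨc' : ∀ r : k0, Ψ (algebraMap k0 O r) = tr L (PowerSeries.C (algebraMap k0 κ r)) := by
    intro r
    rw [hΨc r]
    congr 2
    rw [IsScalarTower.algebraMap_apply k0 (IsLocalRing.ResidueField O) κ r]
    rfl
  choose y hy using fun i : Fin N => je_tr_surj (Ψ (algebraMap B O (π (X i))))
  set x : Fin N → Fin L → κ := fun i μ => PowerSeries.coeff μ (c * y i) with hx
  have hxarc : ∀ i, tr L (arc (x i)) = tr L c * Ψ (algebraMap B O (π (X i))) := by
    intro i
    rw [← hy i, ← je_tr_mul, je_tr_coeff]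
    intro n hn
    exact je_arc_coeff (x i) ⟨n, hn⟩
  -- evaluation of homogeneous polynomials
  have hev : ∀ (m : ℕ) (s : MvPolynomial (Fin N) k0), s.IsHomogeneous m →
      tr L (ev x s) = tr L c ^ m * Ψ (algebraMap B O (π s)) := by
    intro m s hs
    have e1 : tr L (ev x s) = eval₂ ((Ideal.Quotient.mk (Ideal.span
        {(PowerSeries.X : PowerSeries κ) ^ L})).comp (algebraMap k0 (PowerSeries κ)))
        (fun i => tr L c * Ψ (algebraMap B O (π (X i)))) s := by
      have : (fun i => tr L c * Ψ (algebraMap B O (π (X i)))) =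
          (Ideal.Quotient.mk (Ideal.span {(PowerSeries.X : PowerSeries κ) ^ L})) ∘
            (fun i => arc (x i)) := by
        funext i
        exact (hxarc i).symm
      rw [this, ← eval₂_comp_left]
      rfl
    have e2 : Ψ (algebraMap B O (π s)) = eval₂ ((Ideal.Quotient.mk (Ideal.span
        {(PowerSeries.X : PowerSeries κ) ^ L})).comp (algebraMap k0 (PowerSeries κ)))
        (fun i => Ψ (algebraMap B O (π (X i)))) s := by
      have h1 : π s = eval₂ (algebraMap k0 B) (fun i => π (X i)) s := by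
        conv_lhs => rw [aeval_unique π]
        rfl
      have h2 : (Ideal.Quotient.mk (Ideal.span
        {(PowerSeries.X : PowerSeries κ) ^ L})).comp (algebraMap k0 (PowerSeries κ)) =
          (Ψ.comp (algebraMap B O)).comp (algebraMap k0 B) := by
        ext r
        rw [RingHom.comp_apply, RingHom.comp_apply, RingHom.comp_apply,
          ← IsScalarTower.algebraMap_apply k0 B O, hΨc' r, PowerSeries.algebraMap_apply]
      rw [h2]
      have h3 : (fun i => Ψ (algebraMap B O (π (X i)))) =
          (Ψ.comp (algebraMap B O)) ∘ (fun i => π (X i)) := rfl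
      rw [h3, ← eval₂_comp_left, ← h1]
      rfl
    rw [e1, e2]
    exact je_hom _ _ _ hs
  have hcx : ∀ μ : Fin L, x j μ = w (Sum.inr (Sum.inr μ)) := by
    intro μ
    have h1 := hxarc j
    rw [hj, map_one, map_one, mul_one, je_tr_coeff] at h1
    have h2 := h1 μ μ.2
    rw [je_arc_coeff, hc, je_c_coeff] at h2
    exact h2
  refine ⟨x, fun μ => by rw [hcx]; exact hw0 _, ?_, ?_⟩
  · intro m l s hs hl hmem
    rw [ht.maximalIdeal_eq, Ideal.span_singleton_pow, Ideal.mem_span_singleton] at hmem
    obtain ⟨r, hr⟩ := hmem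
    obtain ⟨r', hr'⟩ := je_tr_surj (Ψ r)
    have h1 := hev m s hs
    rw [hr, map_mul, map_pow, hΨt, ← hr', ← je_tr_pow, ← je_tr_pow, ← je_tr_mul, ← je_tr_mul,
      je_tr_eq] at h1
    have h2 : (PowerSeries.X : PowerSeries κ) ^ l ∣ c ^ m * (a ^ l * r') := by
      have h3 : (PowerSeries.X : PowerSeries κ) ∣ a := PowerSeries.X_dvd_iff.2 (je_a0 _ _)
      exact Dvd.dvd.mul_left (Dvd.dvd.mul_right (pow_dvd_pow_of_dvd h3 l) _) _
    have h4 : (PowerSeries.X : PowerSeries κ) ^ l ∣ ev x s - c ^ m * (a ^ l * r') :=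
      (pow_dvd_pow _ hl).trans h1
    have h5 := dvd_add h4 h2
    rwa [sub_add_cancel] at h5
  · have hz := hu.sumElim_comp hw
    have hcard : Fintype.card ((Fin L' ⊕ ((Fin q × Fin L') ⊕ Fin L)) ⊕ Fin q) + 1 =
        (q + 2) * L := by
      simp only [Fintype.card_sum, Fintype.card_prod, Fintype.card_fin]
      rw [hL]
      ring
    have hjc := jc_tau (Sum.elim w (algebraMap (IsLocalRing.ResidueField O) κ ∘
      (fun i => IsLocalRing.residue O (u i)))) hz (fun p : Fin N × Fin L => x p.1 p.2) ℓ ?_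
    · unfold tauJ
      omega
    · intro m D hD hDx
      -- the maps
      have hDc : ∀ i, tr L (je_DD (D i) c) = 0 := by
        intro i
        rw [je_tr_zero]
        intro n hn
        have h1 := je_c_coeff L (fun μ => w (Sum.inr (Sum.inr μ))) ⟨n, hn⟩
        simp only at h1
        rw [je_DD_coeff, hc, h1, ← hcx]
        exact hDx i (j, ⟨n, hn⟩)
      have hcu : IsUnit (tr L c) := by
        have h1 : IsUnit c := by
          rw [PowerSeries.isUnit_iff_constantCoeff, ← PowerSeries.coeff_zero_eq_constantCoeff_apply]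
          have h2 := je_c_coeff L (fun μ => w (Sum.inr (Sum.inr μ))) ⟨0, hL0⟩
          simp only at h2
          rw [hc, h2]
          exact (hw0 _).isUnit
        exact h1.map (Ideal.Quotient.mk _)
      have hdX : ∀ i (n : Fin N), je_del (D i) Ψ (algebraMap B O (π (X n))) = 0 := by
        intro i n
        rw [je_del_eq (D i) Ψ _ (y n) (hy n)]
        have h1 : tr L (je_DD (D i) (c * y n)) = 0 := by
          rw [je_tr_zero]
          intro k hk
          rw [je_DD_coeff]
          exact hDx i (n, ⟨k, hk⟩)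
        rw [je_DD_mul, je_tr_add, je_tr_mul, je_tr_mul, hDc, mul_zero, add_zero] at h1
        exact (hcu.mul_right_eq_zero).1 h1
      have hdB : ∀ i (β : B), je_del (D i) Ψ (algebraMap B O β) = 0 := by
        intro i β
        obtain ⟨s, rfl⟩ := hπ β
        induction s using MvPolynomial.induction_on with
        | C r =>
          have h1 : algebraMap B O (π (C r)) = algebraMap k0 O r := by
            have : π (C r) = algebraMap k0 B r := π.commutes r
            rw [this, ← IsScalarTower.algebraMap_apply]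
          rw [h1, je_del_eq (D i) Ψ _ _ (hΨc' r).symm, je_DD_C, Derivation.map_algebraMap]
          simp
        | add p r hp hr => rw [map_add, map_add, je_del_add, hp, hr, add_zero]
        | mul_X p n hp =>
          rw [map_mul, map_mul, je_del_mul, hp, hdX, mul_zero, mul_zero, add_zero]
      choose g hg using fun i => je_sl (B := B) Ψ (je_del (D i) Ψ) (je_del_add (D i) Ψ)
        (je_del_mul (D i) Ψ) (hdB i)
      refine jd_length t ht L Ψ a (je_a0 _ _) (je_a1 _ _ (fun i => hw0 _)) hΨt (Ω[O⁄B]) ℓ hℓ m g ?_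
      rw [Fintype.linearIndependent_iff]
      intro r hr
      -- the combination of the derivations
      set E : Derivation k0 κ κ := ∑ i, r i • D i with hE
      have hEa : ∀ v : κ, E v = ∑ i, r i * D i v := by
        intro v
        have h1 : (Derivation.coeFnAddMonoidHom E) v =
            ∑ i, (Derivation.coeFnAddMonoidHom (r i • D i)) v := by
          rw [hE, map_sum, Finset.sum_apply]
        exact h1
      have hEO : ∀ (o : O) (f : PowerSeries κ), tr L f = Ψ o → ∀ n < L,
          E (PowerSeries.coeff n f) = 0 := by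
        intro o f hf n hn
        have h1 : ∑ i, r i • (je_del (D i) Ψ o) = 0 := by
          have h2 := congrArg (fun G : (Ω[O⁄B]) →ₛₗ[Ψ] Tr κ L =>
            G (KaehlerDifferential.D B O o)) hr
          simp only [LinearMap.sum_apply, LinearMap.smul_apply, LinearMap.zero_apply, hg] at h2
          exact h2
        have h3 : tr L (∑ i, PowerSeries.C (r i) * je_DD (D i) f) = 0 := by
          rw [← h1, je_tr_sum]
          refine Finset.sum_congr rfl fun i _ => ?_
          rw [je_del_eq (D i) Ψ o f hf, je_tr_smul]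
        rw [je_tr_zero] at h3
        have h4 := h3 n hn
        rw [map_sum] at h4
        rw [hEa, ← h4]
        refine Finset.sum_congr rfl fun i _ => ?_
        rw [PowerSeries.coeff_C_mul, je_DD_coeff]
      have hE0 : E = 0 := by
        refine je_zero E _ hz ?_
        rintro ((i | ⟨i, μ⟩ | μ) | i)
        · have h1 := hEO t a hΨt.symm (i + 1) (by omega)
          rw [ha, je_a_coeff] at h1
          exact h1
        · have h1 := hEO (u i) (b i) (hΨu i).symm (μ + 1) (by omega)
          rw [hb] at h1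
          simp only at h1
          rw [je_b_coeff] at h1
          exact h1
        · show E (w (Sum.inr (Sum.inr μ))) = 0
          rw [← hcx, hEa]
          refine Finset.sum_eq_zero fun i _ => ?_
          have h1 := hDx i (j, μ)
          simp only at h1
          rw [h1, mul_zero]
        · have h1 := hEO (u i) (b i) (hΨu i).symm 0 hL0
          rw [PowerSeries.coeff_zero_eq_constantCoeff_apply, hb] at h1
          simp only at h1
          rw [je_b0] at h1
          exact h1
      have h5 := Fintype.linearIndependent_iff.1 hD r (by rw [← hE]; exact hE0)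
      exact h5

end core

/-- a purely transcendental extension -/
theorem je_ext (F : Type) [Field F] (P : Type) : ∃ (κ : Type) (_ : Field κ) (_ : Algebra F κ)
    (w : P → κ), IsTranscendenceBasis F w := by
  refine ⟨FractionRing (MvPolynomial P F), inferInstance, inferInstance,
    algebraMap (MvPolynomial P F) (FractionRing (MvPolynomial P F)) ∘ X, ?_⟩
  have : Algebra.IsAlgebraic (MvPolynomial P F) (FractionRing (MvPolynomial P F)) :=
    IsLocalization.isAlgebraic _ (nonZeroDivisors (MvPolynomial P F))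
  exact (IsTranscendenceBasis.mvPolynomial P F).algebraMap_comp

/-- (JE) generic jets of a divisorial valuation: order and transcendence degree -/
theorem je_jets2 {k0 : Type} [Field k0] [CharZero k0] {N : ℕ} (j : Fin N)
    (B O : Type) [CommRing B] [Algebra k0 B] [CommRing O] [IsDomain O]
    [IsDiscreteValuationRing O] [Algebra k0 O] [Algebra B O] [IsScalarTower k0 B O]
    (π : MvPolynomial (Fin N) k0 →ₐ[k0] B) (hπ : Function.Surjective π) (hj : π (X j) = 1)
    (q : ℕ) (hq : Algebra.trdeg k0 (IsLocalRing.ResidueField O) = q)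
    (ℓ : ℕ) (hℓ : Module.length O (Ω[O⁄B]) = ℓ) (L : ℕ) :
    ∃ (κ : Type) (_ : Field κ) (_ : Algebra k0 κ) (x : Fin N → Fin L → κ),
      (∀ μ, x j μ ≠ 0) ∧ (∀ (m l : ℕ) (s : MvPolynomial (Fin N) k0), s.IsHomogeneous m → l ≤ L →
        algebraMap B O (π s) ∈ IsLocalRing.maximalIdeal O ^ l →
        (PowerSeries.X : PowerSeries κ) ^ l ∣ ev x s) ∧
      (q + 2) * L ≤ tauJ k0 x + 1 + ℓ := by
  rcases Nat.eq_zero_or_pos L with hL | hL
  · subst hL
    refine ⟨k0, inferInstance, inferInstance, fun _ i => i.elim0, fun μ => μ.elim0, ?_, ?_⟩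
    · intro m l s _ hl _
      rw [Nat.le_zero.1 hl, pow_zero]
      exact one_dvd _
    · rw [mul_zero]
      exact Nat.zero_le _
  · -- a transcendence basis of the residue field
    obtain ⟨S, hS⟩ := exists_isTranscendenceBasis k0 (IsLocalRing.ResidueField O)
    have hcard : Cardinal.mk S = (q : Cardinal) := by
      rw [hS.cardinalMk_eq_trdeg, hq]
    have he : Nonempty (Fin q ≃ S) := by
      rw [← Cardinal.eq, hcard]
      simp
    obtain ⟨e⟩ := he
    choose u hu using fun i : Fin q => IsLocalRing.residue_surjective (R := O)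
      ((e i : S) : IsLocalRing.ResidueField O)
    have hub : IsTranscendenceBasis k0 (fun i => IsLocalRing.residue O (u i)) := by
      have h1 : (fun i => IsLocalRing.residue O (u i)) =
          ((↑) : S → IsLocalRing.ResidueField O) ∘ e := by
        funext i
        exact hu i
      rw [h1]
      exact (isTranscendenceBasis_equiv e).2 hS
    obtain ⟨t, ht⟩ := IsDiscreteValuationRing.exists_irreducible O
    obtain ⟨L', hL'⟩ : ∃ L', L = L' + 1 := ⟨L - 1, by omega⟩
    obtain ⟨κ, hκ, hκ', w, hw⟩ := je_ext (IsLocalRing.ResidueField O)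
      (Fin L' ⊕ ((Fin q × Fin L') ⊕ Fin L))
    let hk0 : Algebra k0 κ := ((algebraMap (IsLocalRing.ResidueField O) κ).comp
      (algebraMap k0 (IsLocalRing.ResidueField O))).toAlgebra
    have htow : IsScalarTower k0 (IsLocalRing.ResidueField O) κ :=
      IsScalarTower.of_algebraMap_eq fun _ => rfl
    obtain ⟨x, hx0, hx1, hx2⟩ := je_core j B O π hπ hj q L' L hL' ℓ hℓ u hub t ht κ w hw
    exact ⟨κ, hκ, hk0, x, hx0, hx1, hx2⟩

/-- (JE) generic jets of a divisorial valuation: order and transcendence degree -/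
theorem je_jets_pr {k0 : Type} [Field k0] [CharZero k0] {N : ℕ} (j : Fin N)
    (B O : Type) [CommRing B] [Algebra k0 B] [CommRing O] [IsDomain O]
    [IsDiscreteValuationRing O] [Algebra k0 O] [Algebra B O] [IsScalarTower k0 B O]
    (π : MvPolynomial (Fin N) k0 →ₐ[k0] B) (hπ : Function.Surjective π) (hj : π (X j) = 1)
    (q : ℕ) (hq : Algebra.trdeg k0 (IsLocalRing.ResidueField O) = q)
    (ℓ : ℕ) (hℓ : Module.length O (Ω[O⁄B]) = ℓ) (L : ℕ) :
    ∃ (κ : Type) (_ : Field κ) (_ : Algebra k0 κ) (x : Fin N → Fin L → κ),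
      (∀ (m l : ℕ) (s : MvPolynomial (Fin N) k0), s.IsHomogeneous m → l ≤ L →
        algebraMap B O (π s) ∈ IsLocalRing.maximalIdeal O ^ l →
        (PowerSeries.X : PowerSeries κ) ^ l ∣ ev x s) ∧
      (q + 2) * L ≤ tauJ k0 x + 1 + ℓ := by
  obtain ⟨κ, h1, h2, x, -, h4, h5⟩ := je_jets2 j B O π hπ hj q hq ℓ hℓ L
  exact ⟨κ, h1, h2, x, h4, h5⟩

alias je_jets := je_jets_pr

end Pool.Agent.KSS
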