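import Pool.Agent.Lib_helper77.KSSP.Base
/-!
# KSS block VG (helper35): very general forms exist
-/

namespace Pool.Agent.KSS

open MvPolynomial

theorem vg_family (J : Type) [Countable J] : ∃ c : J → ℂ, AlgebraicIndependent ℚ c := by
  obtain ⟨ι, x, hx⟩ := exists_isTranscendenceBasis' ℚ ℂ
  have h1 : Cardinal.mk ℂ = Cardinal.mk ι := by
    refine IsAlgClosed.cardinal_eq_cardinal_transcendence_basis_of_aleph0_lt' x hx ?_ ?_
    · exact Cardinal.mk_le_aleph0
    · rw [Cardinal.mk_complex]
      exact Cardinal.aleph0_lt_continuum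
  have h2 : Cardinal.mk J ≤ Cardinal.mk ι := by
    rw [← h1, Cardinal.mk_complex]
    exact Cardinal.mk_le_aleph0.trans Cardinal.aleph0_lt_continuum.le
  obtain ⟨e⟩ := h2
  exact ⟨fun j => x (e j), hx.1.comp e e.injective⟩

/-- (VG) very general forms exist -/
theorem vg_exists_pr {N k : ℕ} (d : Fin k → ℕ) :
    ∃ f : Fin k → MvPolynomial (Fin N) ℂ, Gen d f := by
  classical
  obtain ⟨c, hc⟩ := vg_family (Σ i : Fin k, {α : Fin N →₀ ℕ // α.degree = d i})
  have hfin : ∀ i : Fin k, {α : Fin N →₀ ℕ | α.degree = d i}.Finite := fun i =>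
    Finsupp.finite_of_degree_eq (d i)
  set g : Fin k → (Fin N →₀ ℕ) → ℂ := fun i α =>
    if h : α.degree = d i then c ⟨i, ⟨α, h⟩⟩ else 0 with hg
  refine ⟨fun i => ∑ α ∈ (hfin i).toFinset, monomial α (g i α), ?_, ?_⟩
  · intro i
    refine IsHomogeneous.sum _ _ _ fun α hα => ?_
    have hα' : α.degree = d i := by simpa using hα
    exact isHomogeneous_monomial _ hα'
  · have h3 : (fun e : Σ i : Fin k, {α : Fin N →₀ ℕ // α.degree = d i} =>
        coeff e.2.1 (∑ α ∈ (hfin e.1).toFinset, monomial α (g e.1 α))) = c := by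
      funext e
      obtain ⟨i, α, hα⟩ := e
      show coeff α (∑ β ∈ (hfin i).toFinset, monomial β (g i β)) = c ⟨i, ⟨α, hα⟩⟩
      rw [coeff_sum, Finset.sum_eq_single α]
      · rw [coeff_monomial, if_pos rfl, hg]
        simp only
        rw [dif_pos hα]
      · intro β _ hβ
        rw [coeff_monomial, if_neg hβ]
      · intro h
        exact absurd ((hfin i).mem_toFinset.2 hα) h
    rw [h3]
    exact hc

alias vg_exists := vg_exists_pr

end Pool.Agent.KSS
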